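import Pool.Agent.helper34.LogCosh.Core

/-!
Positivity of the Brownian bridge kernel and the pointwise bound `h_j^2 ≤ Q_j`.
-/

open Finset Complex
open scoped ComplexConjugate

namespace Pool.Agent.helper34.LogCosh

/-- Positivity of `min (i,l) - i l / n`. -/
theorem bridge_nonneg (n : ℕ) (hn : 0 < n) (z : ℕ → ℂ) :
    0 ≤ (∑ i ∈ range n, ∑ l ∈ range n,
      (((min i l : ℕ) : ℂ) - (i : ℂ) * l / n) * (z i * conj (z l))).re := by
  have hn' : (n : ℂ) ≠ 0 := by exact_mod_cast hn.ne'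
  have hnR : (0 : ℝ) < n := by exact_mod_cast hn
  set Z : ℕ → ℂ := fun m => ∑ i ∈ range n, if m < i then z i else 0 with hZ
  have hmin : ∀ i ∈ range n, ∀ l ∈ range n,
      ((min i l : ℕ) : ℂ) = ∑ m ∈ range n, (if m < i then (1 : ℂ) else 0) * (if m < l then 1 else 0) := by
    intro i hi l hl
    have hi' := mem_range.1 hi
    have hl' := mem_range.1 hl
    have : ∀ m ∈ range n, (if m < i then (1 : ℂ) else 0) * (if m < l then 1 else 0)
        = if m < min i l then 1 else 0 := by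
      intro m _
      by_cases h1 : m < i <;> by_cases h2 : m < l <;> simp [h1, h2]
    rw [Finset.sum_congr rfl this, Finset.sum_ite, Finset.sum_const_zero, add_zero, Finset.sum_const,
      nsmul_eq_mul, mul_one]
    congr 1
    have hf : (range n).filter (fun m => m < min i l) = range (min i l) := by
      ext m
      simp only [mem_filter, mem_range]
      omega
    rw [hf, card_range]
  have h1 : ∑ i ∈ range n, ∑ l ∈ range n, ((min i l : ℕ) : ℂ) * (z i * conj (z l))
      = ∑ m ∈ range n, Z m * conj (Z m) := by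
    have : ∀ m ∈ range n, Z m * conj (Z m) = ∑ i ∈ range n, ∑ l ∈ range n,
        ((if m < i then (1 : ℂ) else 0) * (if m < l then 1 else 0)) * (z i * conj (z l)) := by
      intro m _
      rw [hZ]
      simp only [map_sum, Finset.sum_mul_sum]
      refine Finset.sum_congr rfl fun i _ => Finset.sum_congr rfl fun l _ => ?_
      split_ifs <;> simp
    rw [Finset.sum_congr rfl this]
    symm
    rw [Finset.sum_comm]
    refine Finset.sum_congr rfl fun i hi => ?_
    rw [Finset.sum_comm]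
    refine Finset.sum_congr rfl fun l hl => ?_
    rw [hmin i hi l hl, Finset.sum_mul]
  have h2 : ∑ m ∈ range n, Z m = ∑ i ∈ range n, (i : ℂ) * z i := by
    rw [hZ]
    simp only
    rw [Finset.sum_comm]
    refine Finset.sum_congr rfl fun i hi => ?_
    have hi' := mem_range.1 hi
    rw [Finset.sum_ite, Finset.sum_const_zero, add_zero, Finset.sum_const, nsmul_eq_mul]
    congr 2
    have hf : (range n).filter (fun m => m < i) = range i := by
      ext m
      simp only [mem_filter, mem_range]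
      omega
    rw [hf, card_range]
  have h3 : ∑ i ∈ range n, ∑ l ∈ range n, ((i : ℂ) * l / n) * (z i * conj (z l))
      = (∑ m ∈ range n, Z m) * conj (∑ m ∈ range n, Z m) / n := by
    rw [h2, map_sum, Finset.sum_mul_sum, Finset.sum_div]
    refine Finset.sum_congr rfl fun i _ => ?_
    rw [Finset.sum_div]
    refine Finset.sum_congr rfl fun l _ => ?_
    rw [map_mul, map_natCast]
    ring
  have h4 : ∑ i ∈ range n, ∑ l ∈ range n,
      (((min i l : ℕ) : ℂ) - (i : ℂ) * l / n) * (z i * conj (z l))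
      = ∑ m ∈ range n, Z m * conj (Z m) - (∑ m ∈ range n, Z m) * conj (∑ m ∈ range n, Z m) / n := by
    rw [← h1, ← h3, ← Finset.sum_sub_distrib]
    refine Finset.sum_congr rfl fun i _ => ?_
    rw [← Finset.sum_sub_distrib]
    refine Finset.sum_congr rfl fun l _ => ?_
    ring
  have hsq : ∀ w : ℂ, w * conj w = ((‖w‖ ^ 2 : ℝ) : ℂ) := fun w => by
    rw [Complex.mul_conj, Complex.normSq_eq_norm_sq]
  rw [h4, hsq]
  simp only [hsq]
  have h5 : (∑ m ∈ range n, ((‖Z m‖ ^ 2 : ℝ) : ℂ) - ((‖∑ m ∈ range n, Z m‖ ^ 2 : ℝ) : ℂ) / n).re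
      = ∑ m ∈ range n, ‖Z m‖ ^ 2 - ‖∑ m ∈ range n, Z m‖ ^ 2 / n := by
    rw [← ofReal_sum, ← ofReal_natCast, ← ofReal_div, ← ofReal_sub, ofReal_re]
  rw [h5, sub_nonneg, div_le_iff₀ hnR]
  calc ‖∑ m ∈ range n, Z m‖ ^ 2 ≤ (∑ m ∈ range n, ‖Z m‖) ^ 2 := by
        gcongr
        exact norm_sum_le _ _
    _ ≤ (card (range n) : ℝ) * ∑ m ∈ range n, ‖Z m‖ ^ 2 := sq_sum_le_card_mul_sum_sq
    _ = (∑ m ∈ range n, ‖Z m‖ ^ 2) * n := by rw [card_range]; ring

variable {n : ℕ} {ψ : ℕ → ℂ}

/-- Pair formula for the weighted antiperiodic correlation. -/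
theorem Q_formula (hψ : Sym n ψ) (hn : 0 < n) {w : ℂ} (hw : ‖w‖ = 1) (hwn : w ^ n = 1) :
    ev n (fun k => (wt n k : ℂ) * (c1 n ψ ψ k - c0 n ψ ψ k)) w
      = ∑ i ∈ range n, ∑ l ∈ range n,
        (1 - 2 * ((i : ℂ) + l - 2 * ((min i l : ℕ) : ℂ)) / n) * ((ψ i * w ^ i) * conj (ψ l * w ^ l)) := by
  have hn' : (n : ℂ) ≠ 0 := by exact_mod_cast hn.ne'
  have h1 : ev n (fun k => (wt n k : ℂ) * (c1 n ψ ψ k - c0 n ψ ψ k)) w
      = ∑ i ∈ range n, ∑ j ∈ range n, (ψ i * ψ j) *
        (∑ k ∈ range n, ((if i + j = n + k then (wt n k : ℂ) * w ^ k else 0)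
          - (if i + j = k then (wt n k : ℂ) * w ^ k else 0))) := by
    unfold ev c1 c0
    have : ∀ k ∈ range n, (wt n k : ℂ) * ((∑ i ∈ range n, ∑ j ∈ range n, if i + j = n + k then ψ i * ψ j else 0)
        - ∑ i ∈ range n, ∑ j ∈ range n, if i + j = k then ψ i * ψ j else 0) * w ^ k
        = ∑ i ∈ range n, ∑ j ∈ range n, (ψ i * ψ j) * ((if i + j = n + k then (wt n k : ℂ) * w ^ k else 0)
          - (if i + j = k then (wt n k : ℂ) * w ^ k else 0)) := by
      intro k _
      rw [← Finset.sum_sub_distrib, Finset.mul_sum, Finset.sum_mul]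
      refine Finset.sum_congr rfl fun i _ => ?_
      rw [← Finset.sum_sub_distrib, Finset.mul_sum, Finset.sum_mul]
      refine Finset.sum_congr rfl fun j _ => ?_
      split_ifs <;> ring
    rw [Finset.sum_congr rfl this, Finset.sum_comm]
    refine Finset.sum_congr rfl fun i _ => ?_
    rw [Finset.sum_comm]
    refine Finset.sum_congr rfl fun j _ => ?_
    rw [Finset.mul_sum]
  rw [h1]
  refine Finset.sum_congr rfl fun i hi => ?_
  rw [← sum_refl n]
  refine Finset.sum_congr rfl fun l hl => ?_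
  have hi' := mem_range.1 hi
  have hl' := mem_range.1 hl
  rw [hψ.refl hl]
  rcases Nat.eq_zero_or_pos l with h0 | h0
  · subst h0; simp [hψ.zero hn]
  rw [Nat.mod_eq_of_lt (show n - l < n by omega), Finset.sum_sub_distrib]
  have hwc : ∀ m : ℕ, w ^ m * (conj w) ^ m = 1 := fun m => by
    rw [← mul_pow, mul_conj_of_norm hw, one_pow]
  by_cases hil : i < l
  · have hmin : min i l = i := by omega
    rw [hmin]
    have hz : ∑ k ∈ range n, (if i + (n - l) = n + k then (wt n k : ℂ) * w ^ k else 0) = 0 := by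
      refine Finset.sum_eq_zero fun k _ => ?_
      rw [if_neg (by omega)]
    rw [hz, Finset.sum_ite_eq, if_pos (mem_range.2 (by omega))]
    have hpw : w ^ (i + (n - l)) = w ^ i * (conj w) ^ l := by
      calc w ^ (i + (n - l)) = w ^ (i + (n - l)) * (w ^ l * (conj w) ^ l) := by rw [hwc, mul_one]
        _ = w ^ (i + (n - l) + l) * (conj w) ^ l := by rw [pow_add w (i + (n - l)) l]; ring
        _ = w ^ (n + i) * (conj w) ^ l := by congr 2; omega
        _ = w ^ i * (conj w) ^ l := by rw [pow_add, hwn, one_mul]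
    rw [hpw, map_mul, map_pow]
    unfold wt
    push_cast [Nat.cast_sub hl'.le]
    field_simp
    ring
  · have hmin : min i l = l := by omega
    rw [hmin]
    have hz : ∑ k ∈ range n, (if i + (n - l) = k then (wt n k : ℂ) * w ^ k else 0) = 0 := by
      refine Finset.sum_eq_zero fun k hk => ?_
      have := mem_range.1 hk
      rw [if_neg (by omega)]
    have hs : ∑ k ∈ range n, (if i + (n - l) = n + k then (wt n k : ℂ) * w ^ k else 0)
        = (wt n (i - l) : ℂ) * w ^ (i - l) := by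
      rw [Finset.sum_eq_single (i - l)]
      · rw [if_pos (by omega)]
      · intro k _ hk
        rw [if_neg (by omega)]
      · intro h
        exact absurd (mem_range.2 (by omega)) h
    rw [hz, hs]
    have hpw : w ^ (i - l) = w ^ i * (conj w) ^ l := by
      calc w ^ (i - l) = w ^ (i - l) * (w ^ l * (conj w) ^ l) := by rw [hwc, mul_one]
        _ = w ^ (i - l + l) * (conj w) ^ l := by rw [pow_add w (i - l) l]; ring
        _ = w ^ i * (conj w) ^ l := by congr 2; omega
    rw [hpw, map_mul, map_pow]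
    unfold wt
    push_cast [Nat.cast_sub (show l ≤ i by omega)]
    field_simp
    ring

/-- `|g(w)|² ≤ Q(w)` at periodic nodes. -/
theorem norm_ev_g_le (hψ : Sym n ψ) (hn : 0 < n) {w : ℂ} (hw : ‖w‖ = 1) (hwn : w ^ n = 1) :
    ‖ev n (fun k => (wt n k : ℂ) * ψ k) w‖ ^ 2
      ≤ (ev n (fun k => (wt n k : ℂ) * (c1 n ψ ψ k - c0 n ψ ψ k)) w).re := by
  have hn' : (n : ℂ) ≠ 0 := by exact_mod_cast hn.ne'
  have hnR : (0 : ℝ) < n := by exact_mod_cast hn
  rw [Q_formula hψ hn hw hwn]
  have hb := bridge_nonneg n hn (fun i => ψ i * w ^ i)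
  have h1 : ((‖ev n (fun k => (wt n k : ℂ) * ψ k) w‖ ^ 2 : ℝ) : ℂ)
      = ∑ i ∈ range n, ∑ l ∈ range n, ((wt n i : ℂ) * (wt n l : ℂ)) * ((ψ i * w ^ i) * conj (ψ l * w ^ l)) := by
    rw [← Complex.normSq_eq_norm_sq, ← Complex.mul_conj]
    unfold ev
    rw [map_sum, Finset.sum_mul_sum]
    refine Finset.sum_congr rfl fun i _ => Finset.sum_congr rfl fun l _ => ?_
    simp only [map_mul, conj_ofReal]
    ring
  have h2 : ∑ i ∈ range n, ∑ l ∈ range n,
        (1 - 2 * ((i : ℂ) + l - 2 * ((min i l : ℕ) : ℂ)) / n) * ((ψ i * w ^ i) * conj (ψ l * w ^ l))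
      = ((‖ev n (fun k => (wt n k : ℂ) * ψ k) w‖ ^ 2 : ℝ) : ℂ)
        + ((4 / n : ℝ) : ℂ) * ∑ i ∈ range n, ∑ l ∈ range n,
          (((min i l : ℕ) : ℂ) - (i : ℂ) * l / n) * ((ψ i * w ^ i) * conj (ψ l * w ^ l)) := by
    rw [h1, Finset.mul_sum, ← Finset.sum_add_distrib]
    refine Finset.sum_congr rfl fun i _ => ?_
    rw [Finset.mul_sum, ← Finset.sum_add_distrib]
    refine Finset.sum_congr rfl fun l _ => ?_
    unfold wt
    push_cast
    field_simp
    ring
  rw [h2, add_re, ofReal_re, re_ofReal_mul]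
  have : 0 ≤ (4 / n : ℝ) * (∑ i ∈ range n, ∑ l ∈ range n,
          (((min i l : ℕ) : ℂ) - (i : ℂ) * l / n) * ((ψ i * w ^ i) * conj (ψ l * w ^ l))).re :=
    mul_nonneg (by positivity) hb
  linarith

end Pool.Agent.helper34.LogCosh
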