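import Mathlib

/-!
The quotient `(cosh w - 1 - w ^ 2 / 2) / w ^ 2`.
-/

open Finset Complex Filter Topology

namespace Pool.Agent.helper34.LogCosh

/-- `cosh w - 1 - w ^ 2 / 2`. -/
noncomputable def kap (w : ℂ) : ℂ := Complex.cosh w - 1 - w ^ 2 / 2

/-- `(cosh w - 1 - w ^ 2 / 2) / w ^ 2`, extended analytically. -/
noncomputable def kq (w : ℂ) : ℂ := dslope (dslope kap 0) 0 w

theorem kap_diff : Differentiable ℂ kap := by
  unfold kap
  fun_prop

theorem kap_zero : kap 0 = 0 := by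
  unfold kap
  simp

theorem kap_deriv_zero : deriv kap 0 = 0 := by
  have h : HasDerivAt kap (Complex.sinh 0 - 0 - (2 * (0 : ℂ) ^ 1) / 2) 0 := by
    unfold kap
    refine HasDerivAt.sub ?_ ?_
    · exact (Complex.hasDerivAt_cosh 0).sub (hasDerivAt_const _ _)
    · have := (hasDerivAt_pow 2 (0 : ℂ)).div_const 2
      simpa using this
  rw [h.deriv]
  simp

theorem dslope_kap (w : ℂ) : w * dslope kap 0 w = kap w := by
  have := sub_smul_dslope kap 0 w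
  rw [sub_zero, smul_eq_mul, kap_zero, sub_zero] at this
  exact this

theorem kq_eq (w : ℂ) : w * (w * kq w) = kap w := by
  have := sub_smul_dslope (dslope kap 0) 0 w
  rw [sub_zero, smul_eq_mul, dslope_same, kap_deriv_zero, sub_zero] at this
  unfold kq
  rw [this, dslope_kap]

theorem kq_diff : Differentiable ℂ kq := by
  rw [← differentiableOn_univ]
  unfold kq
  have h : (Set.univ : Set ℂ) ∈ 𝓝 (0 : ℂ) := Filter.univ_mem
  exact (Complex.differentiableOn_dslope h).2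
    ((Complex.differentiableOn_dslope h).2 kap_diff.differentiableOn)

theorem kap_bound {w : ℂ} (hw : ‖w‖ ≤ 1) : ‖kap w‖ ≤ 0.0431 * ‖w‖ ^ 2 := by
  have h1 := Complex.exp_bound hw (n := 8) (by norm_num)
  have h2 := Complex.exp_bound (x := -w) (by rwa [norm_neg]) (n := 8) (by norm_num)
  rw [norm_neg] at h2
  have e : kap w = ((Complex.exp w - ∑ m ∈ range 8, w ^ m / (Nat.factorial m : ℂ))
      + (Complex.exp (-w) - ∑ m ∈ range 8, (-w) ^ m / (Nat.factorial m : ℂ))) / 2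
      + w ^ 4 / 24 + w ^ 6 / 720 := by
    unfold kap
    rw [Complex.cosh]
    simp [Finset.sum_range_succ, Nat.factorial]
    ring
  rw [e]
  set x := ‖w‖ with hx
  have hx0 : 0 ≤ x := norm_nonneg _
  have n1 : ‖((Complex.exp w - ∑ m ∈ range 8, w ^ m / (Nat.factorial m : ℂ))
      + (Complex.exp (-w) - ∑ m ∈ range 8, (-w) ^ m / (Nat.factorial m : ℂ))) / 2‖
      ≤ x ^ 8 * (9 / 322560) := by
    rw [norm_div, RCLike.norm_ofNat]
    have h3 := norm_add_le (Complex.exp w - ∑ m ∈ range 8, w ^ m / (Nat.factorial m : ℂ))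
      (Complex.exp (-w) - ∑ m ∈ range 8, (-w) ^ m / (Nat.factorial m : ℂ))
    have h4 : x ^ 8 * (((Nat.succ 8 : ℕ) : ℝ) * ((Nat.factorial 8 : ℝ) * (8 : ℕ))⁻¹) = x ^ 8 * (9 / 322560) := by
      norm_num [Nat.factorial]
    rw [h4] at h1 h2
    linarith
  have n2 : ‖w ^ 4 / 24‖ = x ^ 4 / 24 := by
    rw [norm_div, norm_pow, RCLike.norm_ofNat]
  have n3 : ‖w ^ 6 / 720‖ = x ^ 6 / 720 := by
    rw [norm_div, norm_pow, RCLike.norm_ofNat]
  have x4 : x ^ 4 ≤ x ^ 2 := pow_le_pow_of_le_one hx0 hw (by norm_num)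
  have x6 : x ^ 6 ≤ x ^ 2 := pow_le_pow_of_le_one hx0 hw (by norm_num)
  have x8 : x ^ 8 ≤ x ^ 2 := pow_le_pow_of_le_one hx0 hw (by norm_num)
  have x2 : 0 ≤ x ^ 2 := sq_nonneg _
  calc _ ≤ ‖((Complex.exp w - ∑ m ∈ range 8, w ^ m / (Nat.factorial m : ℂ))
      + (Complex.exp (-w) - ∑ m ∈ range 8, (-w) ^ m / (Nat.factorial m : ℂ))) / 2‖ + ‖w ^ 4 / 24‖
      + ‖w ^ 6 / 720‖ := norm_add₃_le
    _ ≤ x ^ 2 * (9 / 322560) + x ^ 2 / 24 + x ^ 2 / 720 := by
        rw [n2, n3]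
        have := n1
        linarith
    _ ≤ _ := by linarith

theorem kq_bound {w : ℂ} (hw : ‖w‖ ≤ 1) : ‖kq w‖ ≤ 0.0431 := by
  have h1 : ∀ v : ℂ, ‖v‖ ≤ 1 → v ≠ 0 → ‖kq v‖ ≤ 0.0431 := by
    intro v hv hv0
    have h2 := kap_bound hv
    rw [← kq_eq, norm_mul, norm_mul] at h2
    have hp : 0 < ‖v‖ := norm_pos_iff.2 hv0
    have h3 : ‖v‖ ^ 2 * ‖kq v‖ ≤ ‖v‖ ^ 2 * 0.0431 := by linarith
    exact le_of_mul_le_mul_left h3 (by positivity)
  by_cases h0 : w = 0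
  · subst h0
    have hc : Tendsto (fun v => ‖kq v‖) (𝓝[≠] (0 : ℂ)) (𝓝 ‖kq 0‖) :=
      ((kq_diff.continuous.norm).tendsto 0).mono_left nhdsWithin_le_nhds
    refine le_of_tendsto hc ?_
    have hb : Metric.ball (0 : ℂ) 1 ∈ 𝓝 (0 : ℂ) := Metric.ball_mem_nhds 0 one_pos
    filter_upwards [self_mem_nhdsWithin, mem_nhdsWithin_of_mem_nhds hb] with v hv hv1
    refine h1 v ?_ hv
    rw [Metric.mem_ball, dist_zero_right] at hv1
    exact hv1.le
  · exact h1 w hw h0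

end Pool.Agent.helper34.LogCosh
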