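import Pool.Agent.helper34.LogCosh.Taylor

/-!
The multiplier inequality: if `|g| ≤ K |q|` on the unit disc with `q` a polynomial, then the
square sum of the Taylor coefficients of `g` is at most `K ^ 2` times the one of `q`.
-/

open Finset Complex Filter Topology
open scoped ComplexConjugate

namespace Pool.Agent.helper34.LogCosh

/-- Rescaled coefficients. -/
noncomputable def sc (r : ℝ) (c : ℕ → ℂ) (k : ℕ) : ℂ := c k * (r : ℂ) ^ k

theorem ev_sc (n : ℕ) (r : ℝ) (c : ℕ → ℂ) (w : ℂ) : ev n (sc r c) w = ev n c (r * w) := by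
  unfold ev sc
  refine Finset.sum_congr rfl fun k _ => ?_
  rw [mul_pow]; ring

theorem nsq_sc_le (n : ℕ) {r : ℝ} (h0 : 0 ≤ r) (h1 : r ≤ 1) (c : ℕ → ℂ) : nsq n (sc r c) ≤ nsq n c := by
  unfold nsq sc
  refine Finset.sum_le_sum fun k _ => ?_
  have h2 : ‖c k * (r : ℂ) ^ k‖ ≤ ‖c k‖ := by
    rw [norm_mul, norm_pow, Complex.norm_real, Real.norm_eq_abs, abs_of_nonneg h0]
    have := pow_le_one₀ (n := k) h0 h1
    calc ‖c k‖ * r ^ k ≤ ‖c k‖ * 1 := by gcongr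
      _ = ‖c k‖ := mul_one _
  gcongr

theorem nsq_range_mono {m n : ℕ} (h : m ≤ n) (c : ℕ → ℂ) : nsq m c ≤ nsq n c := by
  unfold nsq
  exact Finset.sum_le_sum_of_subset_of_nonneg (Finset.range_mono h) fun _ _ _ => by positivity

theorem nsq_tr {m n : ℕ} (h : m ≤ n) (c : ℕ → ℂ) : nsq n (tr m c) = nsq m c := by
  unfold nsq
  rw [← Finset.sum_subset (Finset.range_mono h)]
  · refine Finset.sum_congr rfl fun k hk => ?_
    unfold tr
    rw [if_pos (mem_range.1 hk)]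
  · intro k _ hk
    unfold tr
    rw [if_neg (fun h => hk (mem_range.2 h))]
    simp

theorem ev_tr {m n : ℕ} (h : m ≤ n) (c : ℕ → ℂ) (w : ℂ) : ev n (tr m c) w = ev m c w := by
  unfold ev
  rw [← Finset.sum_subset (Finset.range_mono h)]
  · refine Finset.sum_congr rfl fun k hk => ?_
    unfold tr
    rw [if_pos (mem_range.1 hk)]
  · intro k _ hk
    unfold tr
    rw [if_neg (fun h => hk (mem_range.2 h))]
    simp

theorem norm_ev_le (n : ℕ) (q : ℕ → ℂ) {w : ℂ} (hw : ‖w‖ ≤ 1) : ‖ev n q w‖ ≤ ∑ k ∈ range n, ‖q k‖ := by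
  unfold ev
  refine (norm_sum_le _ _).trans (Finset.sum_le_sum fun k _ => ?_)
  rw [norm_mul, norm_pow]
  have := pow_le_one₀ (n := k) (norm_nonneg w) hw
  calc ‖q k‖ * ‖w‖ ^ k ≤ ‖q k‖ * 1 := by gcongr
    _ = ‖q k‖ := mul_one _

/-- Tail of the majorant series. -/
noncomputable def tail (γ : ℕ → ℂ) (r : ℝ) (n : ℕ) : ℝ := ∑' k, ‖γ (k + n)‖ * r ^ (k + n)

theorem tail_tendsto (γ : ℕ → ℂ) (r : ℝ) : Tendsto (tail γ r) atTop (𝓝 0) :=
  tendsto_sum_nat_add (fun k => ‖γ k‖ * r ^ k)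

theorem norm_ev_le_add_tail {g : ℂ → ℂ} {γ : ℕ → ℂ} (hg : IsTaylor g γ) {r : ℝ} (h1 : r < 1)
    (n : ℕ) {z : ℂ} (hz : ‖z‖ = r) : ‖ev n γ z‖ ≤ ‖g z‖ + tail γ r n := by
  have hs := hg z (by rw [hz]; exact h1)
  have h2 := hs.summable.sum_add_tsum_nat_add n
  rw [hs.tsum_eq] at h2
  have h3 : ev n γ z = g z - ∑' k, γ (k + n) * z ^ (k + n) := by
    rw [← h2]; unfold ev; ring
  rw [h3]
  refine (norm_sub_le _ _).trans ?_
  have h4 : Summable fun k => ‖γ (k + n) * z ^ (k + n)‖ :=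
    (summable_nat_add_iff (f := fun k => ‖γ k * z ^ k‖) n).2 hs.summable.norm
  have h5 : ‖∑' k, γ (k + n) * z ^ (k + n)‖ ≤ ∑' k, ‖γ (k + n) * z ^ (k + n)‖ := norm_tsum_le_tsum_norm h4
  have h6 : ∑' k, ‖γ (k + n) * z ^ (k + n)‖ = tail γ r n := by
    unfold tail
    refine tsum_congr fun k => ?_
    rw [norm_mul, norm_pow, hz]
  linarith

theorem mult_step {g : ℂ → ℂ} {γ : ℕ → ℂ} (hg : IsTaylor g γ) {K : ℝ} (hK : 0 ≤ K) {N : ℕ} {q : ℕ → ℂ}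
    (hb : ∀ z : ℂ, ‖z‖ < 1 → ‖g z‖ ≤ K * ‖ev N q z‖) {r : ℝ} (h0 : 0 ≤ r) (h1 : r < 1)
    {n : ℕ} (hn : 0 < n) (hN : N ≤ n) :
    nsq n (sc r γ) ≤ K ^ 2 * nsq N q + 2 * K * (∑ k ∈ range N, ‖q k‖) * tail γ r n + tail γ r n ^ 2 := by
  set Q : ℝ := ∑ k ∈ range N, ‖q k‖ with hQ
  set τ : ℝ := tail γ r n with hτ
  have hQ0 : 0 ≤ Q := Finset.sum_nonneg fun _ _ => norm_nonneg _
  have hτ0 : 0 ≤ τ := tsum_nonneg fun k => by positivity
  have hnR : (0 : ℝ) < n := by exact_mod_cast hn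
  have hp1 := parseval_norm n 0 hn (sc r γ)
  have hp2 := parseval_norm n 0 hn (tr N (sc r q))
  rw [nsq_tr hN] at hp2
  have hle : ∑ j ∈ range n, ‖ev n (sc r γ) (rt n 0 j)‖ ^ 2
      ≤ ∑ j ∈ range n, (K ^ 2 * ‖ev n (tr N (sc r q)) (rt n 0 j)‖ ^ 2 + (2 * K * Q * τ + τ ^ 2)) := by
    refine Finset.sum_le_sum fun j _ => ?_
    have hw := norm_rt n 0 j
    set w := rt n 0 j
    have hz : ‖(r : ℂ) * w‖ = r := by
      rw [norm_mul, hw, mul_one, Complex.norm_real, Real.norm_eq_abs, abs_of_nonneg h0]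
    rw [ev_sc, ev_tr hN, ev_sc]
    have e1 := norm_ev_le_add_tail hg h1 n hz
    have e2 := hb ((r : ℂ) * w) (by rw [hz]; exact h1)
    have e3 : ‖ev N q ((r : ℂ) * w)‖ ≤ Q := norm_ev_le N q (by rw [hz]; exact h1.le)
    have e4 := norm_nonneg (ev N q ((r : ℂ) * w))
    set A := ‖ev N q ((r : ℂ) * w)‖
    have e5 : ‖ev n γ ((r : ℂ) * w)‖ ≤ K * A + τ := by linarith
    calc ‖ev n γ ((r : ℂ) * w)‖ ^ 2 ≤ (K * A + τ) ^ 2 := by gcongr
      _ = K ^ 2 * A ^ 2 + 2 * K * τ * A + τ ^ 2 := by ring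
      _ ≤ K ^ 2 * A ^ 2 + 2 * K * τ * Q + τ ^ 2 := by gcongr
      _ = _ := by ring
  rw [Finset.sum_add_distrib, ← Finset.mul_sum, hp1, hp2, Finset.sum_const, card_range, nsmul_eq_mul] at hle
  have h3 : nsq N (sc r q) ≤ nsq N q := nsq_sc_le N h0 h1.le q
  have h4 : n * nsq n (sc r γ) ≤ n * (K ^ 2 * nsq N q + 2 * K * Q * τ + τ ^ 2) := by
    calc n * nsq n (sc r γ) ≤ K ^ 2 * (n * nsq N (sc r q)) + n * (2 * K * Q * τ + τ ^ 2) := hle
      _ ≤ K ^ 2 * (n * nsq N q) + n * (2 * K * Q * τ + τ ^ 2) := by gcongr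
      _ = _ := by ring
  exact le_of_mul_le_mul_left h4 hnR

theorem multiplier {g : ℂ → ℂ} {γ : ℕ → ℂ} (hg : IsTaylor g γ) {K : ℝ} (hK : 0 ≤ K) {N : ℕ} {q : ℕ → ℂ}
    (hb : ∀ z : ℂ, ‖z‖ < 1 → ‖g z‖ ≤ K * ‖ev N q z‖) (M : ℕ) : nsq M γ ≤ K ^ 2 * nsq N q := by
  have hA : ∀ r : ℝ, 0 ≤ r → r < 1 → nsq M (sc r γ) ≤ K ^ 2 * nsq N q := by
    intro r h0 h1
    have ht := tail_tendsto γ r
    have hlim : Tendsto (fun n => K ^ 2 * nsq N q + 2 * K * (∑ k ∈ range N, ‖q k‖) * tail γ r n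
        + tail γ r n ^ 2) atTop (𝓝 (K ^ 2 * nsq N q + 2 * K * (∑ k ∈ range N, ‖q k‖) * 0 + 0 ^ 2)) :=
      (tendsto_const_nhds.add (ht.const_mul _)).add (ht.pow 2)
    have h2 : K ^ 2 * nsq N q + 2 * K * (∑ k ∈ range N, ‖q k‖) * 0 + 0 ^ 2 = K ^ 2 * nsq N q := by ring
    rw [h2] at hlim
    refine ge_of_tendsto hlim ?_
    filter_upwards [eventually_ge_atTop (max (max M N) 1)] with n hn
    have hM : M ≤ n := le_trans (le_trans (le_max_left _ _) (le_max_left _ _)) hn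
    have hN : N ≤ n := le_trans (le_trans (le_max_right _ _) (le_max_left _ _)) hn
    have hn1 : 0 < n := le_trans (le_max_right _ _) hn
    exact (nsq_range_mono hM _).trans (mult_step hg hK hb h0 h1 hn1 hN)
  have hcont : Continuous fun r : ℝ => nsq M (sc r γ) := by
    unfold nsq sc
    fun_prop
  have h3 : Tendsto (fun r : ℝ => nsq M (sc r γ)) (𝓝[<] 1) (𝓝 (nsq M (sc 1 γ))) :=
    (hcont.tendsto 1).mono_left nhdsWithin_le_nhds
  have h4 : nsq M (sc 1 γ) = nsq M γ := by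
    unfold nsq sc
    simp
  rw [h4] at h3
  refine le_of_tendsto h3 ?_
  have h5 : Set.Ioo (0 : ℝ) 1 ∈ 𝓝[<] (1 : ℝ) := Ioo_mem_nhdsLT one_pos
  filter_upwards [h5] with r hr
  exact hA r hr.1.le hr.2

end Pool.Agent.helper34.LogCosh
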