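import Pool.Agent.helper34.LogCosh.Reduce
import Pool.Agent.helper34.LogCosh.Mult
import Pool.Agent.helper34.LogCosh.Kappa

/-!
The coefficient inequality for `h(ω)`, `h(w) = w + cosh w - 1`, `ω` a Schwarz function.
-/

open Finset Complex Filter Topology
open scoped ComplexConjugate

namespace Pool.Agent.helper34.LogCosh

variable {n : ℕ} {c : ℕ → ℂ} {ω : ℂ → ℂ}

theorem cp_eq_c0 {k n : ℕ} (hk : k < n) (a b : ℕ → ℂ) : cp a b k = c0 n a b k := by
  unfold cp c0
  rw [← Finset.sum_product' (range n) (range n) (fun i j => if i + j = k then a i * b j else 0)]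
  rw [← Finset.sum_filter]
  refine Finset.sum_congr ?_ fun _ _ => rfl
  ext p
  simp only [HasAntidiagonal.mem_antidiagonal, mem_filter, mem_product, mem_range]
  omega

theorem cp_eq_sum (a b : ℕ → ℂ) (n : ℕ) : cp a b n = ∑ k ∈ range (n + 1), a k * b (n - k) := by
  unfold cp
  exact Finset.Nat.sum_antidiagonal_eq_sum_range_succ (fun i j => a i * b j) n

theorem nsq_succ (n : ℕ) (a : ℕ → ℂ) : nsq (n + 1) a = nsq n a + ‖a n‖ ^ 2 := by
  unfold nsq; rw [Finset.sum_range_succ]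

theorem schwarz_l2 (hc : IsTaylor ω c) (hω : ∀ z : ℂ, ‖z‖ < 1 → ‖ω z‖ < 1) (M : ℕ) : nsq M c ≤ 1 := by
  have h := multiplier hc zero_le_one (N := 1) (q := fun _ => 1) (fun z hz => by
    have := hω z hz
    simp [ev]
    exact this.le) M
  simpa [nsq] using h

/-- Coefficients of `1 + ã`. -/
noncomputable def oneTw (n : ℕ) (a : ℕ → ℂ) (k : ℕ) : ℂ := if k = 0 then 1 else tw n a k

theorem nsq_oneTw (hn : 0 < n) (a : ℕ → ℂ) (h0 : a 0 = 0) : nsq n (oneTw n a) = 1 + nsq n a := by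
  rw [← nsq_tw n a h0]
  obtain ⟨m, rfl⟩ : ∃ m, n = m + 1 := ⟨n - 1, by omega⟩
  unfold nsq
  rw [Finset.sum_range_succ', Finset.sum_range_succ' (fun k => ‖tw (m + 1) a k‖ ^ 2)]
  simp [oneTw, tw]
  ring

theorem ev_oneTw (hn : 0 < n) (a : ℕ → ℂ) (w : ℂ) : ev n (oneTw n a) w = 1 + ev n (tw n a) w := by
  obtain ⟨m, rfl⟩ : ∃ m, n = m + 1 := ⟨n - 1, by omega⟩
  unfold ev
  rw [Finset.sum_range_succ', Finset.sum_range_succ' (fun k => tw (m + 1) a k * w ^ k)]
  simp [oneTw, tw]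
  ring

theorem c0_tr {k : ℕ} (a b : ℕ → ℂ) : c0 n a (tr n b) k = c0 n a b k := by
  unfold c0
  refine Finset.sum_congr rfl fun i _ => Finset.sum_congr rfl fun j hj => ?_
  unfold tr
  rw [if_pos (mem_range.1 hj)]

theorem c0_oneTw {k : ℕ} (hk : k < n) (a : ℕ → ℂ) : c0 n a (oneTw n a) k = PPx n a k := by
  have hn : 0 < n := by omega
  unfold PPx c0
  have h1 : ∀ i ∈ range n, (∑ j ∈ range n, if i + j = k then a i * oneTw n a j else 0)
      = (if i = k then a i else 0) + ∑ j ∈ range n, if i + j = k then a i * tw n a j else 0 := by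
    intro i _
    obtain ⟨m, rfl⟩ : ∃ m, n = m + 1 := ⟨n - 1, by omega⟩
    rw [Finset.sum_range_succ', Finset.sum_range_succ' (fun j => if i + j = k then a i * tw (m + 1) a j else 0)]
    simp [oneTw, tw]
    ring
  rw [Finset.sum_congr rfl h1, Finset.sum_add_distrib, Finset.sum_ite_eq' (range n) k a, if_pos (mem_range.2 hk)]

theorem cp_oneTw_top (hn : 0 < n) (a : ℕ → ℂ) (h0 : a 0 = 0) :
    cp a (tr n (oneTw n a)) n = a n + (nsq n a : ℝ) := by
  rw [cp_eq_sum, Finset.sum_range_succ]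
  have h1 : a n * tr n (oneTw n a) (n - n) = a n := by
    simp [tr, oneTw, hn]
  rw [h1, add_comm]
  congr 1
  unfold nsq
  push_cast
  refine Finset.sum_congr rfl fun k hk => ?_
  have hk' := mem_range.1 hk
  rcases Nat.eq_zero_or_pos k with h | h
  · subst h; simp [h0]
  · unfold tr oneTw tw
    rw [if_pos (by omega), if_neg (by omega), if_neg (by omega), show n - (n - k) = k by omega,
      Complex.mul_conj, Complex.normSq_eq_norm_sq]
    push_cast; rfl

theorem twist_ineq (hn : 0 < n) (hc : IsTaylor ω c) (hω : ∀ z : ℂ, ‖z‖ < 1 → ‖ω z‖ < 1) (h0 : c 0 = 0) :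
    nsq n (off (PPx n c)) + ‖c n + (nsq n c : ℝ)‖ ^ 2 ≤ 1 + nsq n c := by
  have hg := hc.mul (isTaylor_ev n (oneTw n c))
  have h := multiplier hg zero_le_one (N := n) (q := oneTw n c) (fun z hz => by
    rw [norm_mul]
    have := (hω z hz).le
    gcongr) (n + 1)
  rw [nsq_oneTw hn c h0, one_pow, one_mul, nsq_succ, cp_oneTw_top hn c h0] at h
  have h2 : nsq n (off (PPx n c)) ≤ nsq n (cp c (tr n (oneTw n c))) := by
    unfold nsq
    refine Finset.sum_le_sum fun k hk => ?_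
    unfold off
    split_ifs with hk0
    · rw [norm_zero, zero_pow two_ne_zero]; positivity
    · rw [cp_eq_c0 (mem_range.1 hk), c0_tr, c0_oneTw (mem_range.1 hk)]
  linarith

theorem cp_zero {a b : ℕ → ℂ} (h0 : a 0 = 0) : cp a b 0 = 0 := by
  unfold cp
  simp [h0]

theorem tail_ineq (hω : ∀ z : ℂ, ‖z‖ < 1 → ‖ω z‖ < 1) (h0 : c 0 = 0)
    {e : ℕ → ℂ} (he : IsTaylor (fun z => kq (ω z)) e) :
    ‖cp c (cp c e) n‖ ≤ 0.0431 * nsq n c := by
  have hg := (isTaylor_ev n c).mul he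
  have h := multiplier hg (K := 0.0431) (by norm_num) (N := n) (q := c) (fun z hz => by
    rw [norm_mul, mul_comm]
    have := kq_bound (hω z hz).le
    gcongr) (n + 1)
  have hd : ∀ k, k < n → cp c e k = cp (tr n c) e k := by
    intro k hk
    unfold cp
    refine Finset.sum_congr rfl fun p hp => ?_
    have := HasAntidiagonal.mem_antidiagonal.1 hp
    unfold tr
    rw [if_pos (by omega)]
  rw [cp_eq_sum]
  have h1 : ‖∑ k ∈ range (n + 1), c k * cp c e (n - k)‖
      ≤ ∑ k ∈ range n, ‖c k‖ * ‖cp (tr n c) e (n - k)‖ := by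
    rw [Finset.sum_range_succ, Nat.sub_self, cp_zero h0, mul_zero, add_zero]
    refine (norm_sum_le _ _).trans (Finset.sum_le_sum fun k hk => ?_)
    have hk' := mem_range.1 hk
    rcases Nat.eq_zero_or_pos k with hz | hz
    · subst hz; simp [h0]
    · rw [norm_mul, hd (n - k) (by omega)]
  refine h1.trans ?_
  have h2 : ∀ k ∈ range n, ‖c k‖ * ‖cp (tr n c) e (n - k)‖
      ≤ 0.0431 / 2 * ‖c k‖ ^ 2 + 1 / (2 * 0.0431) * ‖cp (tr n c) e (n - k)‖ ^ 2 := by
    intro k _
    have := sq_nonneg (0.0431 * ‖c k‖ - ‖cp (tr n c) e (n - k)‖)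
    have h3 : 0.0431 / 2 * ‖c k‖ ^ 2 + 1 / (2 * 0.0431) * ‖cp (tr n c) e (n - k)‖ ^ 2
      - ‖c k‖ * ‖cp (tr n c) e (n - k)‖
      = 1 / (2 * 0.0431) * (0.0431 * ‖c k‖ - ‖cp (tr n c) e (n - k)‖) ^ 2 := by ring
    nlinarith
  refine (Finset.sum_le_sum h2).trans ?_
  rw [Finset.sum_add_distrib, ← Finset.mul_sum, ← Finset.mul_sum]
  have h4 : ∑ k ∈ range n, ‖cp (tr n c) e (n - k)‖ ^ 2 ≤ 0.0431 ^ 2 * nsq n c := by
    refine le_trans ?_ h
    have h7 := Finset.sum_range_reflect (fun j => ‖cp (tr n c) e j‖ ^ 2) (n + 1)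
    rw [Finset.sum_range_succ] at h7
    simp only [Nat.add_sub_cancel] at h7
    have h5 : 0 ≤ ‖cp (tr n c) e (n - n)‖ ^ 2 := by positivity
    have h8 : nsq (n + 1) (cp (tr n c) e) = ∑ k ∈ range (n + 1), ‖cp (tr n c) e k‖ ^ 2 := rfl
    rw [h8, ← h7]
    linarith
  have h6 : (∑ k ∈ range n, ‖c k‖ ^ 2) = nsq n c := rfl
  rw [h6]
  calc _ ≤ 0.0431 / 2 * nsq n c + 1 / (2 * 0.0431) * (0.0431 ^ 2 * nsq n c) := by gcongr
    _ = _ := by ring

theorem quad_re (h0 : c 0 = 0) :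
    (cp c c n).re = nsq n (sy n c) - nsq n (an n c) := by
  rw [nsq_sy_sub_an, cp_eq_sum, Finset.sum_range_succ, Nat.sub_self, h0, mul_zero, add_zero]
  congr 1
  refine Finset.sum_congr rfl fun k _ => ?_
  rcases Nat.eq_zero_or_pos k with h | h
  · subst h; simp [h0]
  · unfold tw
    rw [if_neg (by omega), conj_conj]

/-- The real part version of the coefficient inequality. -/
theorem re_coef_le (hn : 0 < n) (hc : IsTaylor ω c) (hω : ∀ z : ℂ, ‖z‖ < 1 → ‖ω z‖ < 1) (h0 : c 0 = 0)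
    {e : ℕ → ℂ} (he : IsTaylor (fun z => kq (ω z)) e) :
    (c n + 1 / 2 * cp c c n + cp c (cp c e) n).re ≤ 1 := by
  have h1 := schwarz_l2 hc hω (n + 1)
  have h2 := twist_ineq hn hc hω h0
  have h3 := tail_ineq (n := n) hω h0 he
  have h4 := quad_re (n := n) h0
  have h5 := nsq_sy_add_an n c h0
  have hP := nsq_nonneg n (sy n c)
  have hC := nsq_nonneg n (an n c)
  have hW := nsq_nonneg n (off (PPx n c))
  have hmain := main_ineq (n := n) (a := c) h0 hn
  have h6 := nsq_succ n c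
  rw [h6] at h1
  have e1 : (c n + 1 / 2 * cp c c n + cp c (cp c e) n).re
      = (c n).re + 1 / 2 * (cp c c n).re + (cp c (cp c e) n).re := by
    simp
  rw [e1, h4]
  have h7 : (cp c (cp c e) n).re ≤ 0.0431 * nsq n c := (Complex.re_le_norm _).trans h3
  have h8 : (c n).re ^ 2 ≤ ‖c n‖ ^ 2 := by
    rw [← Complex.normSq_eq_norm_sq, Complex.normSq_apply]
    nlinarith [sq_nonneg (c n).im]
  have h9 : ((c n).re + nsq n c) ^ 2 ≤ ‖c n + (nsq n c : ℝ)‖ ^ 2 := by
    rw [← Complex.normSq_eq_norm_sq, Complex.normSq_apply]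
    simp only [add_re, ofReal_re, add_im, ofReal_im, add_zero]
    nlinarith [sq_nonneg (c n).im]
  set t := (c n).re
  set m := nsq n c
  set P := nsq n (sy n c)
  set C := nsq n (an n c)
  set W := nsq n (off (PPx n c))
  set T := (cp c (cp c e) n).re
  by_cases hm : m ≤ 3 / 10
  · have h10 := hmain hm
    have h11 : m + W ≤ 2 * (1 - t) := by nlinarith [sq_nonneg (t + m - 1)]
    linarith
  · push Not at hm
    have ht : t ^ 2 ≤ 1 - m := by linarith
    have ht2 : t ≤ 0.84 := by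
      by_contra hcon
      push Not at hcon
      nlinarith
    have ht1 : t ≤ 1 := by linarith
    have h12 : P - C ≤ m := by linarith
    have h13 : m ≤ 1 - t ^ 2 := by linarith
    nlinarith

end Pool.Agent.helper34.LogCosh
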