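import Pool.Agent.helper34.LogCosh.Dft

/-!
The core inequality for symmetric sequences.
-/

open Finset Complex
open scoped ComplexConjugate

namespace Pool.Agent.helper34.LogCosh

/-- Symmetric sequences: `ψ̃ = ψ`. -/
def Sym (n : ℕ) (ψ : ℕ → ℂ) : Prop := ∀ k ∈ range n, tw n ψ k = ψ k

theorem Sym.zero {n : ℕ} {ψ : ℕ → ℂ} (h : Sym n ψ) (hn : 0 < n) : ψ 0 = 0 := by
  have := h 0 (mem_range.2 hn)
  simpa [tw] using this.symm

theorem Sym.refl {n : ℕ} {ψ : ℕ → ℂ} (h : Sym n ψ) {k : ℕ} (hk : k ∈ range n) :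
    ψ ((n - k) % n) = conj (ψ k) := by
  have hk' := mem_range.1 hk
  have hn : 0 < n := by omega
  rcases Nat.eq_zero_or_pos k with h0 | h0
  · subst h0; simp [h.zero hn]
  · rw [Nat.mod_eq_of_lt (show n - k < n by omega)]
    have := h (n - k) (mem_range.2 (by omega))
    unfold tw at this
    rw [if_neg (by omega), show n - (n - k) = k by omega] at this
    exact this.symm

/-- The weight `1 - 2k/n`. -/
noncomputable def wt (n k : ℕ) : ℝ := 1 - 2 * k / n

theorem abs_wt_le {n k : ℕ} (hk : k ∈ range n) : |wt n k| ≤ 1 := by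
  have hk' := mem_range.1 hk
  have hn : (0 : ℝ) < n := by exact_mod_cast (by omega : 0 < n)
  have h1 : (k : ℝ) / n ≤ 1 := by
    rw [div_le_one hn]; exact_mod_cast hk'.le
  have h2 : (0 : ℝ) ≤ (k : ℝ) / n := by positivity
  unfold wt
  rw [abs_le]
  have : 2 * (k : ℝ) / n = 2 * ((k : ℝ) / n) := by ring
  rw [this]
  constructor <;> linarith

section trilinear

variable {n : ℕ} {ψ : ℕ → ℂ}

/-- The symmetric trilinear sum with a weight. -/
noncomputable def tri (n : ℕ) (ψ : ℕ → ℂ) (F : ℕ → ℕ → ℕ → ℂ) : ℂ :=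
  ∑ l ∈ range n, ∑ i ∈ range n, ∑ j ∈ range n,
    if i + j + l = n then F i j l * (ψ i * ψ j * ψ l) else 0

theorem tri_swap (F : ℕ → ℕ → ℕ → ℂ) : tri n ψ F = tri n ψ (fun i j l => F l j i) := by
  unfold tri
  rw [Finset.sum_comm]
  refine Finset.sum_congr rfl fun i _ => Finset.sum_congr rfl fun l _ =>
    Finset.sum_congr rfl fun j _ => ?_
  have : (i + j + l = n) ↔ (l + j + i = n) := by omega
  simp only [this]
  split_ifs <;> ring

theorem tri_swap' (F : ℕ → ℕ → ℕ → ℂ) : tri n ψ F = tri n ψ (fun i j l => F j i l) := by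
  unfold tri
  refine Finset.sum_congr rfl fun l _ => ?_
  rw [Finset.sum_comm]
  refine Finset.sum_congr rfl fun i _ => Finset.sum_congr rfl fun j _ => ?_
  have : (j + i + l = n) ↔ (i + j + l = n) := by omega
  simp only [this]
  split_ifs <;> ring

theorem tri_index : 3 * tri n ψ (fun _ _ l => (l : ℂ)) = n * tri n ψ (fun _ _ _ => 1) := by
  have h1 : tri n ψ (fun _ _ l => (l : ℂ)) = tri n ψ (fun i _ _ => (i : ℂ)) := tri_swap _
  have h2 : tri n ψ (fun i _ _ => (i : ℂ)) = tri n ψ (fun _ j _ => (j : ℂ)) := tri_swap' _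
  have h3 : tri n ψ (fun i _ _ => (i : ℂ)) + tri n ψ (fun _ j _ => (j : ℂ))
      + tri n ψ (fun _ _ l => (l : ℂ)) = n * tri n ψ (fun _ _ _ => 1) := by
    unfold tri
    simp only [← Finset.sum_add_distrib, Finset.mul_sum]
    refine Finset.sum_congr rfl fun l _ => Finset.sum_congr rfl fun i _ =>
      Finset.sum_congr rfl fun j _ => ?_
    split_ifs with h
    · rw [← h]; push_cast; ring
    · simp
  calc 3 * tri n ψ (fun _ _ l => (l : ℂ))
      = tri n ψ (fun _ _ l => (l : ℂ)) + tri n ψ (fun _ _ l => (l : ℂ))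
        + tri n ψ (fun _ _ l => (l : ℂ)) := by ring
    _ = tri n ψ (fun i _ _ => (i : ℂ)) + tri n ψ (fun _ j _ => (j : ℂ))
        + tri n ψ (fun _ _ l => (l : ℂ)) := by rw [← h2, ← h1]
    _ = _ := h3

theorem conj_c1 (hψ : Sym n ψ) (hn : 0 < n) {k : ℕ} (hk : k ∈ range n) :
    conj (c1 n ψ ψ k) = ∑ i ∈ range n, ∑ j ∈ range n, if i + j + k = n then ψ i * ψ j else 0 := by
  have hk' := mem_range.1 hk
  unfold c1
  rw [map_sum, ← sum_refl n]
  refine Finset.sum_congr rfl fun i hi => ?_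
  rw [map_sum, ← sum_refl n]
  refine Finset.sum_congr rfl fun j hj => ?_
  have hi' := mem_range.1 hi
  have hj' := mem_range.1 hj
  rw [apply_ite conj, map_mul, map_zero, hψ.refl hi, hψ.refl hj, conj_conj, conj_conj]
  rcases Nat.eq_zero_or_pos i with h0 | h0
  · subst h0; simp [hψ.zero hn]
  rcases Nat.eq_zero_or_pos j with h1 | h1
  · subst h1; simp [hψ.zero hn]
  rw [Nat.mod_eq_of_lt (show n - i < n by omega), Nat.mod_eq_of_lt (show n - j < n by omega)]
  have : (n - i + (n - j) = n + k) ↔ (i + j + k = n) := by omega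
  simp only [this]

theorem sum_c0_conj (hψ : Sym n ψ) (hn : 0 < n) (ω : ℕ → ℂ) :
    ∑ k ∈ range n, c0 n ψ ψ k * (ω k * conj (ψ k)) = tri n ψ (fun _ _ l => ω (n - l)) := by
  unfold tri c0
  rw [← sum_refl n]
  refine Finset.sum_congr rfl fun l hl => ?_
  have hl' := mem_range.1 hl
  rw [hψ.refl hl, conj_conj, Finset.sum_mul]
  refine Finset.sum_congr rfl fun i hi => ?_
  rw [Finset.sum_mul]
  refine Finset.sum_congr rfl fun j hj => ?_
  rcases Nat.eq_zero_or_pos l with h0 | h0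
  · subst h0; simp [hψ.zero hn]
  rw [Nat.mod_eq_of_lt (show n - l < n by omega)]
  have : (i + j = n - l) ↔ (i + j + l = n) := by omega
  simp only [this]
  split_ifs <;> ring

theorem sum_c1_conj (hψ : Sym n ψ) (hn : 0 < n) (ω : ℕ → ℂ) :
    ∑ k ∈ range n, conj (c1 n ψ ψ k) * (ω k * ψ k) = tri n ψ (fun _ _ l => ω l) := by
  unfold tri
  refine Finset.sum_congr rfl fun l hl => ?_
  rw [conj_c1 hψ hn hl, Finset.sum_mul]
  refine Finset.sum_congr rfl fun i hi => ?_
  rw [Finset.sum_mul]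
  refine Finset.sum_congr rfl fun j hj => ?_
  split_ifs <;> ring

/-- The key symmetry identity. -/
theorem re_XG (hψ : Sym n ψ) (hn : 0 < n) :
    3 * (∑ k ∈ range n, (c1 n ψ ψ k - c0 n ψ ψ k) * conj ((wt n k : ℂ) * ψ k)).re
      = (∑ k ∈ range n, (c0 n ψ ψ k + c1 n ψ ψ k) * conj (ψ k)).re := by
  have hn' : (n : ℂ) ≠ 0 := by exact_mod_cast hn.ne'
  set τ := tri n ψ (fun _ _ _ => 1) with hτ
  have hA : ∑ k ∈ range n, c0 n ψ ψ k * conj (ψ k) = τ := by
    have := sum_c0_conj hψ hn (fun _ => 1)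
    simpa using this
  have hB : ∑ k ∈ range n, conj (c1 n ψ ψ k) * ψ k = τ := by
    have := sum_c1_conj hψ hn (fun _ => 1)
    simpa using this
  have hC : ∑ k ∈ range n, c0 n ψ ψ k * ((wt n k : ℂ) * conj (ψ k)) = -(1 / 3) * τ := by
    rw [sum_c0_conj hψ hn (fun k => (wt n k : ℂ))]
    have h1 : tri n ψ (fun _ _ l => ((wt n (n - l) : ℝ) : ℂ))
        = -τ + (2 / n) * tri n ψ (fun _ _ l => (l : ℂ)) := by
      rw [hτ]
      unfold tri
      simp only [← Finset.sum_neg_distrib, ← Finset.sum_add_distrib, Finset.mul_sum]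
      refine Finset.sum_congr rfl fun l hl => Finset.sum_congr rfl fun i _ =>
        Finset.sum_congr rfl fun j _ => ?_
      have hl' := (mem_range.1 hl).le
      split_ifs with h
      · unfold wt
        push_cast [Nat.cast_sub hl']
        field_simp
        ring
      · simp
    rw [h1]
    have h2 := tri_index (n := n) (ψ := ψ)
    rw [← hτ] at h2
    have h3 : tri n ψ (fun _ _ l => (l : ℂ)) = n * τ / 3 := by
      linear_combination h2 / 3
    rw [h3]
    field_simp
    ring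
  have hD : ∑ k ∈ range n, conj (c1 n ψ ψ k) * ((wt n k : ℂ) * ψ k) = (1 / 3) * τ := by
    rw [sum_c1_conj hψ hn (fun k => (wt n k : ℂ))]
    have h1 : tri n ψ (fun _ _ l => ((wt n l : ℝ) : ℂ))
        = τ - (2 / n) * tri n ψ (fun _ _ l => (l : ℂ)) := by
      rw [hτ]
      unfold tri
      simp only [← Finset.sum_sub_distrib, Finset.mul_sum]
      refine Finset.sum_congr rfl fun l hl => Finset.sum_congr rfl fun i _ =>
        Finset.sum_congr rfl fun j _ => ?_
      split_ifs with h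
      · unfold wt
        push_cast
        ring
      · simp
    rw [h1]
    have h2 := tri_index (n := n) (ψ := ψ)
    rw [← hτ] at h2
    have h3 : tri n ψ (fun _ _ l => (l : ℂ)) = n * τ / 3 := by
      linear_combination h2 / 3
    rw [h3]
    field_simp
    ring
  have e1 : (∑ k ∈ range n, (c1 n ψ ψ k - c0 n ψ ψ k) * conj ((wt n k : ℂ) * ψ k)).re
      = (∑ k ∈ range n, conj (c1 n ψ ψ k) * ((wt n k : ℂ) * ψ k)).re
        - (∑ k ∈ range n, c0 n ψ ψ k * ((wt n k : ℂ) * conj (ψ k))).re := by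
    have : (∑ k ∈ range n, conj (c1 n ψ ψ k) * ((wt n k : ℂ) * ψ k)).re
        = (∑ k ∈ range n, c1 n ψ ψ k * conj ((wt n k : ℂ) * ψ k)).re := by
      rw [← conj_re (∑ k ∈ range n, c1 n ψ ψ k * conj ((wt n k : ℂ) * ψ k)), map_sum]
      congr 1
      refine Finset.sum_congr rfl fun k _ => ?_
      simp
    rw [this, ← sub_re, ← Finset.sum_sub_distrib]
    congr 1
    refine Finset.sum_congr rfl fun k _ => ?_
    simp only [map_mul, conj_ofReal]
    ring
  have e2 : (∑ k ∈ range n, (c0 n ψ ψ k + c1 n ψ ψ k) * conj (ψ k)).re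
      = (∑ k ∈ range n, c0 n ψ ψ k * conj (ψ k)).re + (∑ k ∈ range n, conj (c1 n ψ ψ k) * ψ k).re := by
    have : (∑ k ∈ range n, conj (c1 n ψ ψ k) * ψ k).re
        = (∑ k ∈ range n, c1 n ψ ψ k * conj (ψ k)).re := by
      rw [← conj_re (∑ k ∈ range n, c1 n ψ ψ k * conj (ψ k)), map_sum]
      congr 1
      refine Finset.sum_congr rfl fun k _ => ?_
      simp
    rw [this, ← add_re, ← Finset.sum_add_distrib]
    congr 1
    refine Finset.sum_congr rfl fun k _ => ?_
    ring
  rw [e1, e2, hA, hB, hC, hD]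
  simp
  ring

end trilinear

end Pool.Agent.helper34.LogCosh
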