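import Mathlib

/-!
The class `S*_ch` and logarithmic coefficients.
-/

namespace Pool.Agent.helper34.LogCosh

/-- Schwarz function: an analytic map of the open unit disc into itself fixing `0`. -/
structure IsSchwarz (ω : ℂ → ℂ) : Prop where
  analytic : DifferentiableOn ℂ ω (Metric.ball 0 1)
  maps : ∀ z : ℂ, ‖z‖ < 1 → ‖ω z‖ < 1
  zero : ω 0 = 0

/-- The class `S*_ch`: `f` is analytic on the open unit disc, `f 0 = 0`, `f' 0 = 1`, `f` has no
other zero, and `z f' z / f z = ω z + cosh (ω z)` for some Schwarz function `ω`. -/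
structure StarCh (f : ℂ → ℂ) : Prop where
  analytic : DifferentiableOn ℂ f (Metric.ball 0 1)
  zero : f 0 = 0
  deriv_zero : deriv f 0 = 1
  subordinate : ∃ ω : ℂ → ℂ, IsSchwarz ω ∧ ∀ z : ℂ, ‖z‖ < 1 → z ≠ 0 →
    f z ≠ 0 ∧ z * deriv f z / f z = ω z + Complex.cosh (ω z)

/-- `γ` is the sequence of logarithmic coefficients of `f`: the power series with coefficients
`2 * γ n` (and no constant term) converges on the open unit disc to a function `F`
with `exp (F z) = f z / z`. -/
structure IsLogCoeff (f : ℂ → ℂ) (γ : ℕ → ℂ) : Prop where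
  zero : γ 0 = 0
  log : ∃ F : ℂ → ℂ, (∀ z : ℂ, ‖z‖ < 1 → HasSum (fun n : ℕ => 2 * γ n * z ^ n) (F z)) ∧
    ∀ z : ℂ, ‖z‖ < 1 → z ≠ 0 → Complex.exp (F z) = f z / z

end Pool.Agent.helper34.LogCosh
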