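import Mathlib

/-!
Finite Fourier analysis at the `n`-th roots of `1` and of `-1`.
-/

open Finset Complex
open scoped ComplexConjugate

namespace Pool.Agent.helper34.LogCosh

/-- Value at `w` of the polynomial with coefficients `q 0, ..., q (n-1)`. -/
noncomputable def ev (n : ℕ) (q : ℕ → ℂ) (w : ℂ) : ℂ := ∑ k ∈ range n, q k * w ^ k

/-- Square sum of the coefficients `q 0, ..., q (n-1)`. -/
noncomputable def nsq (n : ℕ) (q : ℕ → ℂ) : ℝ := ∑ k ∈ range n, ‖q k‖ ^ 2

/-- Low part of the product of two polynomials of degree below `n`. -/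
noncomputable def c0 (n : ℕ) (a b : ℕ → ℂ) (k : ℕ) : ℂ :=
  ∑ i ∈ range n, ∑ j ∈ range n, if i + j = k then a i * b j else 0

/-- High part of the product of two polynomials of degree below `n`. -/
noncomputable def c1 (n : ℕ) (a b : ℕ → ℂ) (k : ℕ) : ℂ :=
  ∑ i ∈ range n, ∑ j ∈ range n, if i + j = n + k then a i * b j else 0

/-- The nodes: for `s = 0` the `n`-th roots of `1`, for `s = 1` the `n`-th roots of `-1`. -/
noncomputable def rt (n s j : ℕ) : ℂ :=
  Complex.exp (2 * Real.pi * I / n) ^ j * Complex.exp (Real.pi * I * s / n)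

theorem norm_rt (n s j : ℕ) : ‖rt n s j‖ = 1 := by
  unfold rt
  rw [norm_mul, norm_pow]
  have h1 : ‖Complex.exp (2 * Real.pi * I / n)‖ = 1 := by
    have : (2 * Real.pi * I / n : ℂ) = ((2 * Real.pi / n : ℝ) : ℂ) * I := by push_cast; ring
    rw [this, Complex.norm_exp_ofReal_mul_I]
  have h2 : ‖Complex.exp (Real.pi * I * s / n)‖ = 1 := by
    have : (Real.pi * I * s / n : ℂ) = ((Real.pi * s / n : ℝ) : ℂ) * I := by push_cast; ring
    rw [this, Complex.norm_exp_ofReal_mul_I]
  rw [h1, h2]; simp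

theorem rt_pow (n s j : ℕ) (hn : 0 < n) : rt n s j ^ n = (-1) ^ s := by
  unfold rt
  have hn' : (n : ℂ) ≠ 0 := by exact_mod_cast hn.ne'
  have h1 : Complex.exp (2 * Real.pi * I / n) ^ n = 1 := by
    rw [← Complex.exp_nat_mul, show (n : ℂ) * (2 * Real.pi * I / n) = 2 * Real.pi * I by field_simp,
      Complex.exp_two_pi_mul_I]
  have h2 : Complex.exp (Real.pi * I * s / n) ^ n = (-1) ^ s := by
    rw [← Complex.exp_nat_mul, show (n : ℂ) * (Real.pi * I * s / n) = s * (Real.pi * I) by field_simp,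
      Complex.exp_nat_mul, Complex.exp_pi_mul_I]
  rw [mul_pow, ← pow_mul, mul_comm j n, pow_mul, h1, h2, one_pow, one_mul]

theorem mul_conj_of_norm {w : ℂ} (hw : ‖w‖ = 1) : w * conj w = 1 := by
  rw [Complex.mul_conj, Complex.normSq_eq_norm_sq, hw]; simp

/-- Orthogonality relation at the nodes. -/
theorem rt_orth (n s : ℕ) (hn : 0 < n) {k l : ℕ} (hk : k < n) (hl : l < n) :
    ∑ j ∈ range n, rt n s j ^ k * conj (rt n s j ^ l) = if k = l then (n : ℂ) else 0 := by
  have hnz : ∀ j, rt n s j ≠ 0 := fun j h => by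
    have := norm_rt n s j
    rw [h, norm_zero] at this
    norm_num at this
  have hconj : ∀ j, conj (rt n s j) = (rt n s j)⁻¹ := fun j =>
    eq_inv_of_mul_eq_one_right (mul_conj_of_norm (norm_rt n s j))
  by_cases hkl : k = l
  · subst hkl
    simp only [if_true]
    have : ∀ j ∈ range n, rt n s j ^ k * conj (rt n s j ^ k) = 1 := by
      intro j _
      exact mul_conj_of_norm (by rw [norm_pow, norm_rt, one_pow])
    rw [Finset.sum_congr rfl this]
    simp
  · rw [if_neg hkl]
    set ζ : ℂ := Complex.exp (2 * Real.pi * I / n) with hζ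
    set η : ℂ := Complex.exp (Real.pi * I * s / n) with hη
    have hprim : IsPrimitiveRoot ζ n := Complex.isPrimitiveRoot_exp n hn.ne'
    have hζ0 : ζ ≠ 0 := Complex.exp_ne_zero _
    have hη0 : η ≠ 0 := Complex.exp_ne_zero _
    set ρ : ℂ := ζ ^ k * (ζ ^ l)⁻¹ with hρ
    have hterm : ∀ j ∈ range n, rt n s j ^ k * conj (rt n s j ^ l)
        = (η ^ k * (η ^ l)⁻¹) * ρ ^ j := by
      intro j _
      rw [map_pow, hconj]
      unfold rt
      rw [← hζ, ← hη, hρ]
      rw [mul_pow, inv_pow, mul_pow, mul_pow, inv_pow, ← pow_mul, ← pow_mul, ← pow_mul, ← pow_mul,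
        mul_comm j k, mul_comm j l]
      field_simp
    rw [Finset.sum_congr rfl hterm, ← Finset.mul_sum]
    have hρn : ρ ^ n = 1 := by
      rw [hρ, mul_pow, inv_pow, ← pow_mul, ← pow_mul, mul_comm k n, mul_comm l n, pow_mul, pow_mul,
        hprim.pow_eq_one]
      simp
    have hρ1 : ρ ≠ 1 := by
      intro h
      apply hkl
      have h2 : ζ ^ k = ζ ^ l := by
        rw [hρ] at h
        field_simp at h
        exact h
      exact hprim.pow_inj hk hl h2
    have hg : ∑ j ∈ range n, ρ ^ j = 0 := by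
      rw [geom_sum_eq hρ1, hρn, sub_self, zero_div]
    rw [hg, mul_zero]

/-- Parseval, sesquilinear form. -/
theorem parseval (n s : ℕ) (hn : 0 < n) (q p : ℕ → ℂ) :
    ∑ j ∈ range n, ev n q (rt n s j) * conj (ev n p (rt n s j))
      = n * ∑ k ∈ range n, q k * conj (p k) := by
  have h1 : ∀ j ∈ range n, ev n q (rt n s j) * conj (ev n p (rt n s j))
      = ∑ k ∈ range n, ∑ l ∈ range n, (q k * conj (p l)) * (rt n s j ^ k * conj (rt n s j ^ l)) := by
    intro j _
    unfold ev
    rw [map_sum, Finset.sum_mul_sum]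
    refine Finset.sum_congr rfl fun k _ => Finset.sum_congr rfl fun l _ => ?_
    rw [map_mul]; ring
  rw [Finset.sum_congr rfl h1, Finset.sum_comm, Finset.mul_sum]
  refine Finset.sum_congr rfl fun k hk => ?_
  rw [Finset.sum_comm]
  have h2 : ∀ l ∈ range n, ∑ j ∈ range n, (q k * conj (p l)) * (rt n s j ^ k * conj (rt n s j ^ l))
      = if k = l then (q k * conj (p l)) * n else 0 := by
    intro l hl
    rw [← Finset.mul_sum, rt_orth n s hn (mem_range.1 hk) (mem_range.1 hl)]
    split_ifs <;> simp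
  rw [Finset.sum_congr rfl h2, Finset.sum_ite_eq, if_pos hk]
  ring

theorem parseval_norm (n s : ℕ) (hn : 0 < n) (q : ℕ → ℂ) :
    ∑ j ∈ range n, ‖ev n q (rt n s j)‖ ^ 2 = n * nsq n q := by
  have h := parseval n s hn q q
  have h1 : ∀ z : ℂ, z * conj z = ((‖z‖ ^ 2 : ℝ) : ℂ) := fun z => by
    rw [Complex.mul_conj, Complex.normSq_eq_norm_sq]
  simp only [h1] at h
  unfold nsq
  exact_mod_cast h

theorem ev_add (n : ℕ) (a b : ℕ → ℂ) (w : ℂ) : ev n (fun k => a k + b k) w = ev n a w + ev n b w := by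
  unfold ev
  rw [← Finset.sum_add_distrib]
  exact Finset.sum_congr rfl fun k _ => by ring

theorem ev_smul (n : ℕ) (c : ℂ) (a : ℕ → ℂ) (w : ℂ) : ev n (fun k => c * a k) w = c * ev n a w := by
  unfold ev
  rw [Finset.mul_sum]
  exact Finset.sum_congr rfl fun k _ => by ring

/-- Product formula. -/
theorem ev_mul (n : ℕ) (a b : ℕ → ℂ) (w : ℂ) :
    ev n a w * ev n b w = ev n (c0 n a b) w + w ^ n * ev n (c1 n a b) w := by
  unfold ev c0 c1
  rw [Finset.sum_mul_sum]
  have h1 : ∑ k ∈ range n, (∑ i ∈ range n, ∑ j ∈ range n, if i + j = k then a i * b j else 0) * w ^ k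
      = ∑ i ∈ range n, ∑ j ∈ range n, ∑ k ∈ range n, if i + j = k then a i * b j * w ^ k else 0 := by
    simp_rw [Finset.sum_mul]
    rw [Finset.sum_comm]
    refine Finset.sum_congr rfl fun i _ => ?_
    rw [Finset.sum_comm]
    refine Finset.sum_congr rfl fun j _ => Finset.sum_congr rfl fun k _ => ?_
    split_ifs <;> simp
  have h2 : w ^ n * ∑ k ∈ range n, (∑ i ∈ range n, ∑ j ∈ range n, if i + j = n + k then a i * b j else 0) * w ^ k
      = ∑ i ∈ range n, ∑ j ∈ range n, ∑ k ∈ range n, if i + j = n + k then a i * b j * w ^ (n + k) else 0 := by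
    rw [Finset.mul_sum]
    simp_rw [Finset.sum_mul, Finset.mul_sum]
    rw [Finset.sum_comm]
    refine Finset.sum_congr rfl fun i _ => ?_
    rw [Finset.sum_comm]
    refine Finset.sum_congr rfl fun j _ => Finset.sum_congr rfl fun k _ => ?_
    split_ifs
    · rw [pow_add]; ring
    · simp
  rw [h1, h2, ← Finset.sum_add_distrib]
  refine Finset.sum_congr rfl fun i hi => ?_
  rw [← Finset.sum_add_distrib]
  refine Finset.sum_congr rfl fun j hj => ?_
  have hi' := mem_range.1 hi
  have hj' := mem_range.1 hj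
  by_cases hlt : i + j < n
  · rw [Finset.sum_ite_eq, if_pos (mem_range.2 hlt)]
    rw [Finset.sum_eq_zero, add_zero, pow_add]; · ring
    intro k _
    rw [if_neg (by omega)]
  · rw [Finset.sum_ite_eq, if_neg (by simpa using hlt), zero_add]
    rw [Finset.sum_eq_single (i + j - n)]
    · rw [if_pos (by omega), show n + (i + j - n) = i + j by omega, pow_add]; ring
    · intro k _ hk
      rw [if_neg (by omega)]
    · intro h
      exact absurd (mem_range.2 (by omega)) h

/-- Reflection `k ↦ n - k` modulo `n`. -/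
theorem sum_refl {M : Type*} [AddCommMonoid M] (n : ℕ) (f : ℕ → M) :
    ∑ k ∈ range n, f ((n - k) % n) = ∑ k ∈ range n, f k := by
  rcases Nat.eq_zero_or_pos n with h | hn
  · subst h; simp
  refine Finset.sum_nbij' (fun k => (n - k) % n) (fun k => (n - k) % n) ?_ ?_ ?_ ?_ ?_
  · intro k _; exact mem_range.2 (Nat.mod_lt _ hn)
  · intro k _; exact mem_range.2 (Nat.mod_lt _ hn)
  · intro k hk
    have hk' := mem_range.1 hk
    rcases Nat.eq_zero_or_pos k with h0 | h0
    · subst h0; simp
    · rw [Nat.mod_eq_of_lt (show n - k < n by omega), show n - (n - k) = k by omega,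
        Nat.mod_eq_of_lt hk']
  · intro k hk
    have hk' := mem_range.1 hk
    rcases Nat.eq_zero_or_pos k with h0 | h0
    · subst h0; simp
    · rw [Nat.mod_eq_of_lt (show n - k < n by omega), show n - (n - k) = k by omega,
        Nat.mod_eq_of_lt hk']
  · intro k _; rfl

/-- The involution `a ↦ ã`, `ã k = conj (a (n - k))` for `0 < k < n`, `ã 0 = 0`. -/
noncomputable def tw (n : ℕ) (a : ℕ → ℂ) (k : ℕ) : ℂ := if k = 0 then 0 else conj (a (n - k))

theorem ev_tw (n : ℕ) (a : ℕ → ℂ) (h0 : a 0 = 0) {w : ℂ} (hw : ‖w‖ = 1) :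
    ev n (tw n a) w = w ^ n * conj (ev n a w) := by
  unfold ev
  rw [map_sum, Finset.mul_sum, ← sum_refl n (fun k => tw n a k * w ^ k)]
  refine Finset.sum_congr rfl fun k hk => ?_
  have hk' := mem_range.1 hk
  rcases Nat.eq_zero_or_pos k with hk0 | hk0
  · subst hk0
    simp [tw, h0]
  · rw [Nat.mod_eq_of_lt (show n - k < n by omega)]
    unfold tw
    rw [if_neg (by omega), show n - (n - k) = k by omega, map_mul, map_pow]
    have : w ^ n = w ^ (n - k) * w ^ k := by rw [← pow_add]; congr 1; omega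
    rw [this]
    have h3 : w ^ k * (conj w) ^ k = 1 := by rw [← mul_pow, mul_conj_of_norm hw, one_pow]
    calc conj (a k) * w ^ (n - k) = conj (a k) * w ^ (n - k) * (w ^ k * (conj w) ^ k) := by
          rw [h3, mul_one]
      _ = _ := by ring

end Pool.Agent.helper34.LogCosh
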