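import Pool.Agent.helper34.LogCosh.Coef
import Pool.Agent.helper34.LogCosh.Defs

/-!
From the coefficient inequality to logarithmic coefficients.
-/

open Finset Complex Filter Topology
open scoped ComplexConjugate

namespace Pool.Agent.helper34.LogCosh

theorem coef_h {ω : ℂ → ℂ} {c e : ℕ → ℂ} (hc : IsTaylor ω c) (he : IsTaylor (fun z => kq (ω z)) e) :
    IsTaylor (fun z => ω z + Complex.cosh (ω z) - 1)
      (fun n => c n + 1 / 2 * cp c c n + cp c (cp c e) n) := by
  have h := (hc.add ((hc.mul hc).smul (1 / 2))).add (hc.mul (hc.mul he))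
  refine h.congr fun z _ => ?_
  rw [kq_eq]
  unfold kap
  ring

theorem norm_coef_le {ω : ℂ → ℂ} (hω : IsSchwarz ω) {b : ℕ → ℂ}
    (hb : IsTaylor (fun z => ω z + Complex.cosh (ω z) - 1) b) {n : ℕ} (hn : 0 < n) : ‖b n‖ ≤ 1 := by
  have key : ∀ l : ℂ, ‖l‖ = 1 → (b n * l ^ n).re ≤ 1 := by
    intro l hl
    have hlz : ∀ z : ℂ, ‖z‖ < 1 → ‖l * z‖ < 1 := fun z hz => by rw [norm_mul, hl, one_mul]; exact hz
    set v : ℂ → ℂ := fun z => ω (l * z) with hv
    have hc := isTaylor_of_diff hω.analytic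
    have hcv := hc.comp_mul hl.le
    have hkd : DifferentiableOn ℂ (fun z => kq (v z)) (Metric.ball 0 1) :=
      kq_diff.comp_differentiableOn hcv.differentiableOn
    have he := isTaylor_of_diff hkd
    have hbv := hb.comp_mul hl.le
    have huniq := hbv.unique (coef_h hcv he)
    have h0 : (fun k => (Nat.factorial k : ℂ)⁻¹ * iteratedDeriv k ω 0 * l ^ k) 0 = 0 := by
      have := hcv.at_zero
      refine this.symm.trans ?_
      rw [mul_zero, hω.zero]
    have := re_coef_le hn hcv (fun z hz => hω.maps _ (hlz z hz)) h0 he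
    have h2 := congrFun huniq n
    rw [h2]
    exact this
  by_cases h0 : b n = 0
  · rw [h0, norm_zero]; exact zero_le_one
  · have hnC : (n : ℂ) ≠ 0 := by exact_mod_cast hn.ne'
    set l : ℂ := Complex.exp ((-(Complex.arg (b n) / n) : ℝ) * I) with hl
    have hl1 : ‖l‖ = 1 := Complex.norm_exp_ofReal_mul_I _
    have h1 := key l hl1
    have h2 : l ^ n = Complex.exp (-(Complex.arg (b n)) * I) := by
      rw [hl, ← Complex.exp_nat_mul]
      congr 1
      push_cast
      field_simp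
    have h3 : b n * l ^ n = (‖b n‖ : ℂ) := by
      nth_rewrite 1 [← Complex.norm_mul_exp_arg_mul_I (b n)]
      rw [h2, mul_assoc, ← Complex.exp_add]
      have : (Complex.arg (b n) : ℂ) * I + -(Complex.arg (b n)) * I = 0 := by ring
      rw [this, Complex.exp_zero, mul_one]
    rw [h3, Complex.ofReal_re] at h1
    exact h1

theorem eq_of_punctured {u v : ℂ → ℂ} (hu : ContinuousOn u (Metric.ball 0 1))
    (hv : ContinuousOn v (Metric.ball 0 1)) (h : ∀ z : ℂ, ‖z‖ < 1 → z ≠ 0 → u z = v z) :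
    ∀ z : ℂ, ‖z‖ < 1 → u z = v z := by
  intro z hz
  by_cases h0 : z = 0
  · subst h0
    have hb : Metric.ball (0 : ℂ) 1 ∈ 𝓝 (0 : ℂ) := Metric.ball_mem_nhds 0 one_pos
    have e1 : Tendsto u (𝓝[≠] (0 : ℂ)) (𝓝 (u 0)) :=
      ((hu.continuousAt hb).tendsto).mono_left nhdsWithin_le_nhds
    have e2 : Tendsto v (𝓝[≠] (0 : ℂ)) (𝓝 (v 0)) :=
      ((hv.continuousAt hb).tendsto).mono_left nhdsWithin_le_nhds
    have e3 : u =ᶠ[𝓝[≠] (0 : ℂ)] v := by
      filter_upwards [self_mem_nhdsWithin, mem_nhdsWithin_of_mem_nhds hb] with y hy hy1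
      exact h y (mem_ball_iff'.1 hy1) hy
    exact tendsto_nhds_unique (e1.congr' e3) e2
  · exact h z hz h0

theorem logCoeff_taylor {f ω : ℂ → ℂ} (hfa : DifferentiableOn ℂ f (Metric.ball 0 1)) (hω : IsSchwarz ω)
    (hsub : ∀ z : ℂ, ‖z‖ < 1 → z ≠ 0 → f z ≠ 0 ∧ z * deriv f z / f z = ω z + Complex.cosh (ω z))
    {γ : ℕ → ℂ} (hγ : IsLogCoeff f γ) :
    IsTaylor (fun z => ω z + Complex.cosh (ω z) - 1) (fun n => (n : ℂ) * (2 * γ n)) := by
  obtain ⟨F, hF, hexp⟩ := hγ.log
  have hT : IsTaylor F (fun n => 2 * γ n) := hF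
  have hT2 := hT.deriv.mul_id
  have hFd := hT.differentiableOn
  have hsh : sh (fun k => ((k + 1 : ℕ) : ℂ) * (2 * γ (k + 1))) = fun n : ℕ => (n : ℂ) * (2 * γ n) := by
    funext n
    unfold sh
    rcases Nat.eq_zero_or_pos n with h | h
    · subst h; simp
    · rw [if_neg (by omega)]
      have h2 : n - 1 + 1 = n := by omega
      have h3 : (((n - 1) + 1 : ℕ) : ℂ) * (2 * γ (n - 1 + 1)) = (n : ℂ) * (2 * γ n) := by rw [h2]
      exact h3
  rw [hsh] at hT2
  have hωc := hω.analytic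
  have hcomp : DifferentiableOn ℂ (fun z => ω z + Complex.cosh (ω z) - 1) (Metric.ball 0 1) :=
    (hωc.add (Complex.differentiable_cosh.comp_differentiableOn hωc)).sub_const 1
  refine hT2.congr (eq_of_punctured hT2.differentiableOn.continuousOn hcomp.continuousOn ?_)
  intro z hz hz0
  obtain ⟨hfz, hq⟩ := hsub z hz hz0
  have hmem : z ∈ Metric.ball (0 : ℂ) 1 := mem_ball_iff'.2 hz
  have hopen : Metric.ball (0 : ℂ) 1 ∈ 𝓝 z := Metric.isOpen_ball.mem_nhds hmem
  have dF : HasDerivAt F (deriv F z) z := (hFd.differentiableAt hopen).hasDerivAt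
  have df : HasDerivAt f (deriv f z) z := (hfa.differentiableAt hopen).hasDerivAt
  have d1 : HasDerivAt (fun y => Complex.exp (F y)) (Complex.exp (F z) * deriv F z) z := dF.cexp
  have d2 : HasDerivAt (fun y => f y / y) ((deriv f z * z - f z * 1) / z ^ 2) z :=
    df.div (hasDerivAt_id z) hz0
  have hev : (fun y => Complex.exp (F y)) =ᶠ[𝓝 z] (fun y => f y / y) := by
    have h3 : ({0}ᶜ : Set ℂ) ∈ 𝓝 z := isOpen_compl_singleton.mem_nhds hz0
    filter_upwards [hopen, h3] with y hy hy0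
    exact hexp y (mem_ball_iff'.1 hy) hy0
  have h4 := (d2.congr_of_eventuallyEq hev).unique d1
  rw [hexp z hz hz0] at h4
  have h5 : z * deriv F z = z * deriv f z / f z - 1 := by
    field_simp at h4 ⊢
    linear_combination -h4
  rw [h5, hq]

theorem logCoeff_unique {f ω : ℂ → ℂ} (hfa : DifferentiableOn ℂ f (Metric.ball 0 1)) (hω : IsSchwarz ω)
    (hsub : ∀ z : ℂ, ‖z‖ < 1 → z ≠ 0 → f z ≠ 0 ∧ z * deriv f z / f z = ω z + Complex.cosh (ω z))
    {γ δ : ℕ → ℂ} (hγ : IsLogCoeff f γ) (hδ : IsLogCoeff f δ) : γ = δ := by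
  have h := (logCoeff_taylor hfa hω hsub hγ).unique (logCoeff_taylor hfa hω hsub hδ)
  funext n
  rcases Nat.eq_zero_or_pos n with h0 | h0
  · subst h0; rw [hγ.zero, hδ.zero]
  · have h1 : (n : ℂ) * (2 * γ n) = (n : ℂ) * (2 * δ n) := congrFun h n
    have hnC : (n : ℂ) ≠ 0 := by exact_mod_cast h0.ne'
    have h2 := mul_left_cancel₀ hnC h1
    exact mul_left_cancel₀ two_ne_zero h2

theorem logCoeff_exists {f ω : ℂ → ℂ} (hfa : DifferentiableOn ℂ f (Metric.ball 0 1)) (hf0 : f 0 = 0)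
    (hf1 : deriv f 0 = 1) (hω : IsSchwarz ω)
    (hsub : ∀ z : ℂ, ‖z‖ < 1 → z ≠ 0 → f z ≠ 0 ∧ z * deriv f z / f z = ω z + Complex.cosh (ω z)) :
    ∃ γ : ℕ → ℂ, IsLogCoeff f γ := by
  have hωc := hω.analytic
  have hcomp : DifferentiableOn ℂ (fun z => ω z + Complex.cosh (ω z) - 1) (Metric.ball 0 1) :=
    (hωc.add (Complex.differentiable_cosh.comp_differentiableOn hωc)).sub_const 1
  set b : ℕ → ℂ := fun k => (Nat.factorial k : ℂ)⁻¹
    * iteratedDeriv k (fun z => ω z + Complex.cosh (ω z) - 1) 0 with hbdef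
  have hb : IsTaylor (fun z => ω z + Complex.cosh (ω z) - 1) b := isTaylor_of_diff hcomp
  have hb0 : b 0 = 0 := by
    have := hb.at_zero
    rw [← this, hω.zero]
    simp
  set g : ℕ → ℂ := fun n => b n / n with hg
  have hsum : ∀ z : ℂ, ‖z‖ < 1 → Summable fun n => g n * z ^ n := by
    intro z hz
    refine Summable.of_norm_bounded (hb.summable hz) fun n => ?_
    rw [hg, norm_mul, norm_mul, norm_div]
    have : ‖b n‖ / ‖(n : ℂ)‖ ≤ ‖b n‖ := by
      rw [Complex.norm_natCast]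
      rcases Nat.eq_zero_or_pos n with h | h
      · subst h; simp
      · refine div_le_self (norm_nonneg _) ?_
        exact_mod_cast h
    gcongr
  set F : ℂ → ℂ := fun z => ∑' n, g n * z ^ n with hFdef
  have hT : IsTaylor F g := fun z hz => (hsum z hz).hasSum
  have hFd := hT.differentiableOn
  have hF0 : F 0 = 0 := by
    rw [hT.at_zero, hg]
    simp
  have hT2 := hT.deriv.mul_id
  have hsh : sh (fun k => ((k + 1 : ℕ) : ℂ) * g (k + 1)) = b := by
    funext n
    unfold sh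
    rcases Nat.eq_zero_or_pos n with h | h
    · subst h; simp [hb0]
    · rw [if_neg (by omega)]
      have h2 : n - 1 + 1 = n := by omega
      have hnC : (n : ℂ) ≠ 0 := by exact_mod_cast h.ne'
      have h3 : (((n - 1) + 1 : ℕ) : ℂ) * g (n - 1 + 1) = b n := by
        rw [h2, hg]
        field_simp
      exact h3
  rw [hsh] at hT2
  have hzF : ∀ z : ℂ, ‖z‖ < 1 → z * deriv F z = ω z + Complex.cosh (ω z) - 1 := fun z hz =>
    (hT2 z hz).unique (hb z hz)
  have hball : Metric.ball (0 : ℂ) 1 ∈ 𝓝 (0 : ℂ) := Metric.ball_mem_nhds 0 one_pos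
  set p : ℂ → ℂ := dslope f 0 with hp
  have hpd : DifferentiableOn ℂ p (Metric.ball 0 1) := (Complex.differentiableOn_dslope hball).2 hfa
  have hp0 : p 0 = 1 := by rw [hp, dslope_same, hf1]
  have hfp : ∀ z, f z = z * p z := by
    intro z
    have := sub_smul_dslope f 0 z
    rw [sub_zero, smul_eq_mul, hf0, sub_zero] at this
    exact this.symm
  have hode : ∀ z : ℂ, ‖z‖ < 1 → deriv p z = deriv F z * p z := by
    refine eq_of_punctured (hpd.deriv Metric.isOpen_ball).continuousOn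
      ((hFd.deriv Metric.isOpen_ball).mul hpd).continuousOn ?_
    intro z hz hz0
    obtain ⟨hfz, hq⟩ := hsub z hz hz0
    have hmem : z ∈ Metric.ball (0 : ℂ) 1 := mem_ball_iff'.2 hz
    have hopen : Metric.ball (0 : ℂ) 1 ∈ 𝓝 z := Metric.isOpen_ball.mem_nhds hmem
    have dp : HasDerivAt p (deriv p z) z := (hpd.differentiableAt hopen).hasDerivAt
    have df : deriv f z = 1 * p z + z * deriv p z := by
      have h1 : HasDerivAt (fun y => y * p y) (1 * p z + z * deriv p z) z := (hasDerivAt_id z).mul dp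
      have h2 : f = fun y => y * p y := funext hfp
      rw [h2]
      exact h1.deriv
    have h3 := hzF z hz
    have hpz : p z ≠ 0 := fun h => hfz (by rw [hfp, h, mul_zero])
    have h4 : z * deriv F z = z * deriv f z / f z - 1 := by rw [h3, hq]
    rw [df, hfp z] at h4
    field_simp at h4
    have h5 : z * deriv F z * p z = z * deriv p z := by linear_combination h4
    exact (mul_left_cancel₀ hz0 (by linear_combination h5)).symm
  have hconst : ∀ z : ℂ, ‖z‖ < 1 → p z * Complex.exp (-F z) = 1 := by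
    intro z hz
    have hGd : DifferentiableOn ℂ (fun y => p y * Complex.exp (-F y)) (Metric.ball 0 1) :=
      hpd.mul hFd.neg.cexp
    have hG0 : Set.EqOn (deriv fun y => p y * Complex.exp (-F y)) 0 (Metric.ball 0 1) := by
      intro y hy
      have hopen : Metric.ball (0 : ℂ) 1 ∈ 𝓝 y := Metric.isOpen_ball.mem_nhds hy
      have dp : HasDerivAt p (deriv p y) y := (hpd.differentiableAt hopen).hasDerivAt
      have dF : HasDerivAt F (deriv F y) y := (hFd.differentiableAt hopen).hasDerivAt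
      have h1 := dp.mul dF.neg.cexp
      have h2 : deriv (fun y => p y * Complex.exp (-F y)) y
          = deriv p y * Complex.exp (-F y) + p y * (Complex.exp (-F y) * -deriv F y) := h1.deriv
      rw [h2, hode y (mem_ball_iff'.1 hy)]
      simp only [Pi.zero_apply]
      ring
    have h6 : p z * Complex.exp (-F z) = p 0 * Complex.exp (-F 0) :=
      IsOpen.is_const_of_deriv_eq_zero (𝕜 := ℂ) Metric.isOpen_ball
      ((convex_ball (0 : ℂ) 1).isPreconnected) hGd hG0 (mem_ball_iff'.2 hz)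
      (Metric.mem_ball_self one_pos)
    rw [h6, hp0, hF0]
    simp
  refine ⟨fun n => g n / 2, ⟨by simp [hg], F, ?_, ?_⟩⟩
  · intro z hz
    refine (hT z hz).congr_fun fun n => ?_
    ring
  · intro z hz hz0
    have h7 := hconst z hz
    rw [Complex.exp_neg] at h7
    have h8 : p z = Complex.exp (F z) := by
      have := Complex.exp_ne_zero (F z)
      field_simp at h7
      exact h7
    rw [hfp z, ← h8]
    field_simp

theorem main_theorem (f : ℂ → ℂ) (hf : StarCh f) :
    (∃! γ : ℕ → ℂ, IsLogCoeff f γ) ∧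
      ∀ γ : ℕ → ℂ, IsLogCoeff f γ → ∀ n : ℕ, 1 ≤ n → ‖γ n‖ ≤ 1 / (2 * n) := by
  obtain ⟨ω, hω, hsub⟩ := hf.subordinate
  constructor
  · obtain ⟨γ, hγ⟩ := logCoeff_exists hf.analytic hf.zero hf.deriv_zero hω hsub
    exact ⟨γ, hγ, fun δ hδ => logCoeff_unique hf.analytic hω hsub hδ hγ⟩
  · intro γ hγ n hn
    have h1 : ‖(n : ℂ) * (2 * γ n)‖ ≤ 1 :=
      norm_coef_le hω (logCoeff_taylor hf.analytic hω hsub hγ) (n := n) hn
    rw [norm_mul, norm_mul, Complex.norm_natCast, RCLike.norm_ofNat] at h1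
    have hn' : (0 : ℝ) < n := by exact_mod_cast hn
    rw [le_div_iff₀ (by positivity)]
    linarith

end Pool.Agent.helper34.LogCosh
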