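import Pool.Agent.helper34.LogCosh.Scalar

/-!
Reduction of the general case to symmetric sequences.
-/

open Finset Complex
open scoped ComplexConjugate

namespace Pool.Agent.helper34.LogCosh

variable {n : ℕ} {a : ℕ → ℂ}

theorem tw_tw {k : ℕ} (hk : k ∈ range n) (h0 : a 0 = 0) : tw n (tw n a) k = a k := by
  have hk' := mem_range.1 hk
  unfold tw
  split_ifs with h1 h2
  · rw [h1, h0]
  · omega
  · rw [conj_conj, show n - (n - k) = k by omega]

theorem nsq_tw (n : ℕ) (a : ℕ → ℂ) (h0 : a 0 = 0) : nsq n (tw n a) = nsq n a := by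
  unfold nsq
  rw [← sum_refl n (fun k => ‖a k‖ ^ 2)]
  refine Finset.sum_congr rfl fun k hk => ?_
  have hk' := mem_range.1 hk
  unfold tw
  split_ifs with h
  · subst h; simp [h0]
  · rw [Nat.mod_eq_of_lt (show n - k < n by omega), RCLike.norm_conj]

/-- Symmetric part. -/
noncomputable def sy (n : ℕ) (a : ℕ → ℂ) (k : ℕ) : ℂ := (a k + tw n a k) / 2
/-- Antisymmetric part. -/
noncomputable def an (n : ℕ) (a : ℕ → ℂ) (k : ℕ) : ℂ := (a k - tw n a k) / 2

theorem sym_sy (h0 : a 0 = 0) : Sym n (sy n a) := by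
  intro k hk
  have hk' := mem_range.1 hk
  by_cases h : k = 0
  · subst h; simp [h0, sy, tw]
  · have e1 : tw n (sy n a) k = conj (sy n a (n - k)) := if_neg h
    have e2 : tw n a k = conj (a (n - k)) := if_neg h
    have e3 : tw n a (n - k) = conj (a k) := by
      unfold tw
      rw [if_neg (by omega), show n - (n - k) = k by omega]
    rw [e1]
    unfold sy
    rw [e2, e3]
    simp only [map_div₀, map_add, map_ofNat, conj_conj]
    ring

theorem nsq_sy_add_an (n : ℕ) (a : ℕ → ℂ) (h0 : a 0 = 0) :
    nsq n (sy n a) + nsq n (an n a) = nsq n a := by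
  have h2 := nsq_tw n a h0
  have h1 : nsq n (sy n a) + nsq n (an n a) = 1 / 2 * (nsq n a + nsq n (tw n a)) := by
    unfold nsq sy an
    rw [← Finset.sum_add_distrib, ← Finset.sum_add_distrib, Finset.mul_sum]
    refine Finset.sum_congr rfl fun k _ => ?_
    have := parallelogram_law_with_norm ℝ (a k) (tw n a k)
    simp only [norm_div, RCLike.norm_ofNat, div_pow]
    nlinarith
  rw [h1, h2]; ring

theorem nsq_sy_sub_an (n : ℕ) (a : ℕ → ℂ) :
    nsq n (sy n a) - nsq n (an n a) = (∑ k ∈ range n, a k * conj (tw n a k)).re := by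
  unfold nsq sy an
  rw [← Finset.sum_sub_distrib, re_sum]
  refine Finset.sum_congr rfl fun k _ => ?_
  set x := a k
  set y := tw n a k
  have e1 : ‖(x + y) / 2‖ ^ 2 - ‖(x - y) / 2‖ ^ 2 = (normSq (x + y) - normSq (x - y)) / 4 := by
    rw [Complex.normSq_eq_norm_sq, Complex.normSq_eq_norm_sq, norm_div, norm_div, RCLike.norm_ofNat]
    ring
  rw [e1]
  simp only [Complex.normSq_apply, add_re, add_im, sub_re, sub_im, mul_re, conj_re, conj_im]
  ring

theorem conj_c0_refl (h0 : a 0 = 0) {k : ℕ} (hk : k ∈ range n) :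
    conj (c0 n a (tw n a) (n - k)) = c1 n a (tw n a) k := by
  have hk' := mem_range.1 hk
  unfold c0 c1
  rw [map_sum, ← sum_refl n]
  have : ∀ y ∈ range n, conj (∑ j ∈ range n, if (n - y) % n + j = n - k then a ((n - y) % n) * tw n a j else 0)
      = ∑ x ∈ range n, if x + y = n + k then a x * tw n a y else 0 := by
    intro y hy
    have hy' := mem_range.1 hy
    rw [map_sum, ← sum_refl n]
    refine Finset.sum_congr rfl fun x hx => ?_
    have hx' := mem_range.1 hx
    rcases Nat.eq_zero_or_pos y with h1 | h1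
    · subst h1; simp [h0, tw]
    rcases Nat.eq_zero_or_pos x with h2 | h2
    · subst h2; simp [h0, tw]
    rw [Nat.mod_eq_of_lt (show n - y < n by omega), Nat.mod_eq_of_lt (show n - x < n by omega)]
    have : (n - y + (n - x) = n - k) ↔ (x + y = n + k) := by omega
    simp only [this]
    split_ifs with h
    · unfold tw
      rw [if_neg (by omega), if_neg (by omega), show n - (n - x) = x by omega, map_mul, conj_conj]
      ring
    · simp
  rw [Finset.sum_congr rfl this, Finset.sum_comm]

/-- Symmetric part of `a + a * ã` (with its natural value at `0`). -/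
noncomputable def SS (n : ℕ) (a : ℕ → ℂ) (k : ℕ) : ℂ :=
  sy n a k + (c0 n a (tw n a) k + c1 n a (tw n a) k) / 2

/-- Antisymmetric part of `a + a * ã`. -/
noncomputable def TT (n : ℕ) (a : ℕ → ℂ) (k : ℕ) : ℂ :=
  an n a k + (c0 n a (tw n a) k - c1 n a (tw n a) k) / 2

/-- `a + a * ã`. -/
noncomputable def PPx (n : ℕ) (a : ℕ → ℂ) (k : ℕ) : ℂ := a k + c0 n a (tw n a) k

theorem SS_refl (h0 : a 0 = 0) {k : ℕ} (hk : k ∈ range n) (hk0 : k ≠ 0) :
    SS n a (n - k) = conj (SS n a k) := by
  have hk' := mem_range.1 hk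
  have hnk : n - k ∈ range n := mem_range.2 (by omega)
  have e1 := conj_c0_refl h0 hk
  have e2 := conj_c0_refl h0 hnk
  rw [show n - (n - k) = k by omega] at e2
  have e3 : c0 n a (tw n a) (n - k) = conj (c1 n a (tw n a) k) := by rw [← e1, conj_conj]
  have e4 := (sym_sy h0).refl hk
  rw [Nat.mod_eq_of_lt (show n - k < n by omega)] at e4
  unfold SS
  rw [e3, ← e2, e4]
  simp only [map_add, map_div₀, map_ofNat]
  ring

theorem TT_refl (h0 : a 0 = 0) {k : ℕ} (hk : k ∈ range n) (hk0 : k ≠ 0) :
    TT n a (n - k) = -conj (TT n a k) := by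
  have hk' := mem_range.1 hk
  have hnk : n - k ∈ range n := mem_range.2 (by omega)
  have e1 := conj_c0_refl h0 hk
  have e2 := conj_c0_refl h0 hnk
  rw [show n - (n - k) = k by omega] at e2
  have e3 : c0 n a (tw n a) (n - k) = conj (c1 n a (tw n a) k) := by rw [← e1, conj_conj]
  have e4 : an n a (n - k) = -conj (an n a k) := by
    unfold an tw
    rw [if_neg hk0, if_neg (by omega), show n - (n - k) = k by omega]
    simp only [map_sub, map_div₀, map_ofNat, conj_conj]
    ring
  unfold TT
  rw [e3, ← e2, e4]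
  simp only [map_add, map_sub, map_div₀, map_ofNat]
  ring

theorem nsq_PPx (h0 : a 0 = 0) :
    nsq n (off (PPx n a)) = nsq n (off (SS n a)) + nsq n (off (TT n a)) := by
  have horth : (∑ k ∈ range n, off (SS n a) k * conj (off (TT n a) k)).re = 0 := by
    have h1 : ∑ k ∈ range n, (off (SS n a) k * conj (off (TT n a) k)).re
        = - ∑ k ∈ range n, (off (SS n a) k * conj (off (TT n a) k)).re := by
      nth_rewrite 1 [← sum_refl n]
      rw [← Finset.sum_neg_distrib]
      refine Finset.sum_congr rfl fun k hk => ?_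
      have hk' := mem_range.1 hk
      rcases Nat.eq_zero_or_pos k with h | h
      · subst h; simp [off]
      · rw [Nat.mod_eq_of_lt (show n - k < n by omega)]
        unfold off
        rw [if_neg (by omega), if_neg (by omega), if_neg (by omega), if_neg (by omega),
          SS_refl h0 hk (by omega), TT_refl h0 hk (by omega)]
        simp only [mul_re, neg_re, conj_re, map_neg, conj_conj, neg_im, conj_im]
        ring
    rw [re_sum]
    linarith
  have hP : ∀ k, PPx n a k = SS n a k + TT n a k := by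
    intro k
    unfold PPx SS TT sy an
    ring
  have h2 : nsq n (off (PPx n a)) = nsq n (off (SS n a)) + nsq n (off (TT n a))
      + 2 * (∑ k ∈ range n, off (SS n a) k * conj (off (TT n a) k)).re := by
    unfold nsq
    rw [re_sum, Finset.mul_sum, ← Finset.sum_add_distrib, ← Finset.sum_add_distrib]
    refine Finset.sum_congr rfl fun k _ => ?_
    unfold off
    split_ifs
    · simp
    · rw [hP]
      simp only [← Complex.normSq_eq_norm_sq, Complex.normSq_add]
  rw [h2, horth]; ring

theorem nsq_SS (h0 : a 0 = 0) (hn : 0 < n) :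
    nsq n (off (EE n (sy n a))) + nsq n (sy n a) ^ 2 / 4 - nsq n (an n a) / 2 - nsq n a ^ 2 / 4
      ≤ nsq n (off (SS n a)) := by
  have hnR : (0 : ℝ) < n := by exact_mod_cast hn
  have hsym := sym_sy (n := n) h0
  have hs0 : sy n a 0 = 0 := hsym.zero hn
  have h1 := nsq_off n hn (SS n a)
  have h2 := nsq_off n hn (EE n (sy n a))
  have hS0 : SS n a 0 = ((nsq n a / 2 : ℝ) : ℂ) := by
    unfold SS
    have : c0 n a (tw n a) 0 = 0 := by
      unfold c0
      refine Finset.sum_eq_zero fun i _ => Finset.sum_eq_zero fun j _ => ?_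
      split_ifs with h
      · have : i = 0 := by omega
        subst this; simp [h0]
      · rfl
    rw [this, c1_tw_zero a h0, hs0]
    push_cast; ring
  have hE0 : EE n (sy n a) 0 = ((nsq n (sy n a) / 2 : ℝ) : ℂ) := by
    unfold EE
    rw [c0_zero hs0, c1_zero hsym hn, hs0]
    push_cast; ring
  have hnS : ‖SS n a 0‖ ^ 2 = nsq n a ^ 2 / 4 := by
    rw [hS0, Complex.norm_real, Real.norm_eq_abs, sq_abs]; ring
  have hnE : ‖EE n (sy n a) 0‖ ^ 2 = nsq n (sy n a) ^ 2 / 4 := by
    rw [hE0, Complex.norm_real, Real.norm_eq_abs, sq_abs]; ring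
  have hmain : nsq n (EE n (sy n a)) - nsq n (an n a) / 2 ≤ nsq n (SS n a) := by
    have hp1 := parseval_norm n 0 hn (EE n (sy n a))
    have hp2 := parseval_norm n 0 hn (SS n a)
    have hp3 := parseval_norm n 0 hn (an n a)
    have hle : ∑ j ∈ range n, ‖ev n (EE n (sy n a)) (rt n 0 j)‖ ^ 2
        - (∑ j ∈ range n, ‖ev n (an n a) (rt n 0 j)‖ ^ 2) / 2
        ≤ ∑ j ∈ range n, ‖ev n (SS n a) (rt n 0 j)‖ ^ 2 := by
      rw [Finset.sum_div, ← Finset.sum_sub_distrib]
      refine Finset.sum_le_sum fun j _ => ?_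
      have hw := norm_rt n 0 j
      have hwn : rt n 0 j ^ n = 1 := by rw [rt_pow n 0 j hn]; simp
      set w := rt n 0 j
      set β := ev n a w with hβ
      have ht : ev n (tw n a) w = conj β := by
        rw [ev_tw n a h0 hw, hwn, one_mul]
      have hsy : ev n (sy n a) w = (β.re : ℂ) := by
        have : ev n (sy n a) w = (1 / 2) * (ev n a w + ev n (tw n a) w) := by
          rw [← ev_add, ← ev_smul]
          exact ev_congr (fun k _ => by unfold sy; ring) w
        rw [this, ht, ← hβ, Complex.add_conj]; push_cast; ring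
      have han : ev n (an n a) w = (β.im : ℂ) * I := by
        have : ev n (an n a) w = (1 / 2) * (ev n a w + (-1) * ev n (tw n a) w) := by
          rw [← ev_smul, ← ev_add, ← ev_smul]
          exact ev_congr (fun k _ => by unfold an; ring) w
        rw [this, ht, ← hβ]
        have : β + -1 * conj β = β - conj β := by ring
        rw [this, Complex.sub_conj]; push_cast; ring
      have hss : ev n (SS n a) w = ((β.re + (β.re ^ 2 + β.im ^ 2) / 2 : ℝ) : ℂ) := by
        have : ev n (SS n a) w = ev n (sy n a) w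
            + (1 / 2) * (ev n (c0 n a (tw n a)) w + ev n (c1 n a (tw n a)) w) := by
          rw [← ev_add, ← ev_smul, ← ev_add]
          exact ev_congr (fun k _ => by unfold SS; ring) w
        have h2 := ev_mul n a (tw n a) w
        rw [hwn, one_mul] at h2
        rw [this, ← h2, hsy, ht, ← hβ, Complex.mul_conj, Complex.normSq_apply]
        push_cast; ring
      have hee : ev n (EE n (sy n a)) w = ((β.re + β.re ^ 2 / 2 : ℝ) : ℂ) := by
        rw [ev_EE hwn, hsy]; push_cast; ring
      rw [hss, hee, han, norm_mul, Complex.norm_I, mul_one]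
      simp only [Complex.norm_real, Real.norm_eq_abs, sq_abs]
      nlinarith [sq_nonneg (1 + β.re), sq_nonneg β.im, mul_nonneg (sq_nonneg β.im) (sq_nonneg (1 + β.re)),
        mul_nonneg (sq_nonneg β.im) (sq_nonneg β.im)]
    rw [hp1, hp2, hp3] at hle
    have : n * (nsq n (EE n (sy n a)) - nsq n (an n a) / 2) ≤ n * nsq n (SS n a) := by
      calc n * (nsq n (EE n (sy n a)) - nsq n (an n a) / 2)
          = n * nsq n (EE n (sy n a)) - (n * nsq n (an n a)) / 2 := by ring
        _ ≤ _ := hle
    exact le_of_mul_le_mul_left this hnR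
  rw [h1, h2, hnS, hnE] at hmain
  linarith

theorem nsq_TT (h0 : a 0 = 0) (hn : 0 < n) :
    (nsq n (off (XX n (sy n a))) + nsq n (sy n a) ^ 2 - nsq n a ^ 2) / 8 - nsq n (an n a)
      ≤ nsq n (off (TT n a)) := by
  have hnR : (0 : ℝ) < n := by exact_mod_cast hn
  have hsym := sym_sy (n := n) h0
  have hs0 : sy n a 0 = 0 := hsym.zero hn
  set Xt : ℕ → ℂ := fun k => c1 n a (tw n a) k - c0 n a (tw n a) k with hXt
  have h1 : nsq n (off Xt) / 8 - nsq n (an n a) ≤ nsq n (off (TT n a)) := by
    unfold nsq
    rw [Finset.sum_div, ← Finset.sum_sub_distrib]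
    refine Finset.sum_le_sum fun k _ => ?_
    unfold off
    split_ifs with h
    · simp
    · have : TT n a k = an n a k - Xt k / 2 := by
        unfold TT; rw [hXt]; ring
      rw [this]
      have hpl := parallelogram_law_with_norm ℝ (an n a k - Xt k / 2) (an n a k)
      have e1 : an n a k - Xt k / 2 - an n a k = -(Xt k / 2) := by ring
      rw [e1, norm_neg, norm_div, RCLike.norm_ofNat] at hpl
      have h3 : 0 ≤ ‖an n a k - Xt k / 2 + an n a k‖ * ‖an n a k - Xt k / 2 + an n a k‖ := by positivity
      nlinarith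
  have hX0 : ‖Xt 0‖ ^ 2 = nsq n a ^ 2 := by
    have : c0 n a (tw n a) 0 = 0 := by
      unfold c0
      refine Finset.sum_eq_zero fun i _ => Finset.sum_eq_zero fun j _ => ?_
      split_ifs with h
      · have : i = 0 := by omega
        subst this; simp [h0]
      · rfl
    rw [hXt]
    simp only
    rw [this, c1_tw_zero a h0, sub_zero, Complex.norm_real, Real.norm_eq_abs, sq_abs]
  have hXs0 : ‖XX n (sy n a) 0‖ ^ 2 = nsq n (sy n a) ^ 2 := by
    unfold XX
    rw [c0_zero hs0, c1_zero hsym hn, sub_zero, Complex.norm_real, Real.norm_eq_abs, sq_abs]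
  have h2 : nsq n (XX n (sy n a)) ≤ nsq n Xt := by
    have hp1 := parseval_norm n 1 hn (XX n (sy n a))
    have hp2 := parseval_norm n 1 hn Xt
    have hle : ∑ j ∈ range n, ‖ev n (XX n (sy n a)) (rt n 1 j)‖ ^ 2
        ≤ ∑ j ∈ range n, ‖ev n Xt (rt n 1 j)‖ ^ 2 := by
      refine Finset.sum_le_sum fun j _ => ?_
      have hw := norm_rt n 1 j
      have hwn : rt n 1 j ^ n = -1 := by rw [rt_pow n 1 j hn]; simp
      set w := rt n 1 j
      set α := ev n a w with hα
      have ht : ev n (tw n a) w = -conj α := by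
        rw [ev_tw n a h0 hw, hwn]; ring
      have hsy : ev n (sy n a) w = (α.im : ℂ) * I := by
        have : ev n (sy n a) w = (1 / 2) * (ev n a w + ev n (tw n a) w) := by
          rw [← ev_add, ← ev_smul]
          exact ev_congr (fun k _ => by unfold sy; ring) w
        rw [this, ht, ← hα]
        have : α + -conj α = α - conj α := by ring
        rw [this, Complex.sub_conj]; push_cast; ring
      have hx1 : ev n Xt w = ((α.re ^ 2 + α.im ^ 2 : ℝ) : ℂ) := by
        have : ev n Xt w = ev n (c1 n a (tw n a)) w + (-1) * ev n (c0 n a (tw n a)) w := by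
          rw [← ev_smul, ← ev_add]
          exact ev_congr (fun k _ => by rw [hXt]; ring) w
        have h2 := ev_mul n a (tw n a) w
        rw [hwn] at h2
        have h3 : ev n Xt w = -(ev n a w * ev n (tw n a) w) := by rw [h2, this]; ring
        rw [h3, ht, ← hα]
        have h4 : -(α * -conj α) = α * conj α := by ring
        rw [h4, Complex.mul_conj, Complex.normSq_apply]
        push_cast; ring
      have hx2 : ev n (XX n (sy n a)) w = ((α.im ^ 2 : ℝ) : ℂ) := by
        have : ev n (XX n (sy n a)) w = ev n (c1 n (sy n a) (sy n a)) w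
            + (-1) * ev n (c0 n (sy n a) (sy n a)) w := by
          rw [← ev_smul, ← ev_add]
          exact ev_congr (fun k _ => by unfold XX; ring) w
        have h2 := ev_mul n (sy n a) (sy n a) w
        rw [hwn] at h2
        have h3 : ev n (XX n (sy n a)) w = -(ev n (sy n a) w * ev n (sy n a) w) := by rw [h2, this]; ring
        rw [h3, hsy]
        push_cast
        have : (I : ℂ) * I = -1 := Complex.I_mul_I
        linear_combination (-(α.im : ℂ) ^ 2) * this
      rw [hx1, hx2]
      simp only [Complex.norm_real, Real.norm_eq_abs, sq_abs]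
      have h5 : α.im ^ 2 ≤ α.re ^ 2 + α.im ^ 2 := by nlinarith [sq_nonneg α.re]
      exact pow_le_pow_left₀ (sq_nonneg _) h5 2
    rw [hp1, hp2] at hle
    exact le_of_mul_le_mul_left hle hnR
  rw [nsq_off n hn, nsq_off n hn Xt, hX0, hXs0] at h2
  linarith

/-- The final algebraic inequality. -/
theorem main_ineq (h0 : a 0 = 0) (hn : 0 < n) (hm : nsq n a ≤ 3 / 10) :
    0.0862 * nsq n a ≤ 2 * nsq n (an n a) + nsq n (off (PPx n a)) := by
  have h1 := nsq_SS (n := n) h0 hn
  have h2 := nsq_TT (n := n) h0 hn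
  have h3 := nsq_PPx (n := n) (a := a) h0
  have h4 := core_sym (sym_sy (n := n) (a := a) h0) hn
  have h5 := nsq_sy_add_an n a h0
  have hP := nsq_nonneg n (sy n a)
  have hC := nsq_nonneg n (an n a)
  set P := nsq n (sy n a)
  set C := nsq n (an n a)
  rw [h3]
  rw [← h5] at h1 h2 hm ⊢
  nlinarith

end Pool.Agent.helper34.LogCosh
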