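import Pool.Agent.helper34.LogCosh.SymIneq

/-!
The scalar inequality and the core bound for symmetric sequences.
-/

open Finset Complex
open scoped ComplexConjugate

namespace Pool.Agent.helper34.LogCosh

theorem scalar_poly (Y : ℝ) :
    18 * (0.0862 - Y ^ 2) * (5 * 0.0862 + 4 * Y ^ 2) < (1 - Y) ^ 2 := by
  nlinarith [sq_nonneg (Y - 0.16), sq_nonneg (Y ^ 2 - 0.0256), sq_nonneg (Y * (Y - 0.16))]

theorem scalar_core (P x y G : ℝ) (hP : 0 ≤ P) (hx : 0 ≤ x) (hy : 0 ≤ y)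
    (hG : 0 ≤ G) (hA : P ≤ y * √P + 3 * x * √G)
    (hB : (1 + P) * G ≤ (x + y) ^ 2 + 4 * x * y + 2 * P * y) :
    0.0862 * P ≤ y ^ 2 + x ^ 2 / 2 := by
  by_contra hcon
  push Not at hcon
  have hPpos : 0 < P := by
    rcases hP.lt_or_eq with h | h
    · exact h
    · rw [← h] at hcon
      nlinarith [sq_nonneg x, sq_nonneg y]
  set p := √P with hp
  have hppos : 0 < p := Real.sqrt_pos.2 hPpos
  have hpp : p ^ 2 = P := Real.sq_sqrt hP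
  set X := x / p with hX
  set Y := y / p with hY
  set γ := √G / p with hγ
  have hxX : x = X * p := by rw [hX]; field_simp
  have hyY : y = Y * p := by rw [hY]; field_simp
  have hγG : √G = γ * p := by rw [hγ]; field_simp
  have hX0 : 0 ≤ X := by positivity
  have hY0 : 0 ≤ Y := by positivity
  have hγ0 : 0 ≤ γ := by positivity
  have hGγ : G = γ ^ 2 * p ^ 2 := by
    rw [← mul_pow, ← hγG, Real.sq_sqrt hG]
  have h1 : Y ^ 2 + X ^ 2 / 2 < 0.0862 := by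
    rw [hxX, hyY, ← hpp] at hcon
    have : (Y ^ 2 + X ^ 2 / 2) * p ^ 2 < 0.0862 * p ^ 2 := by nlinarith
    exact lt_of_mul_lt_mul_right this (by positivity)
  have h2 : 1 - Y ≤ 3 * X * γ := by
    have : (1 - Y) * p ^ 2 ≤ (3 * X * γ) * p ^ 2 := by
      rw [hγG, hxX, hyY, ← hpp] at hA
      nlinarith
    exact le_of_mul_le_mul_right this (by positivity)
  have h3 : (1 + p ^ 2) * γ ^ 2 ≤ (X + Y) ^ 2 + 4 * X * Y + 2 * p * Y := by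
    have : ((1 + p ^ 2) * γ ^ 2) * p ^ 2 ≤ ((X + Y) ^ 2 + 4 * X * Y + 2 * p * Y) * p ^ 2 := by
      rw [hGγ, hxX, hyY, ← hpp] at hB
      nlinarith
    exact le_of_mul_le_mul_right this (by positivity)
  have hY1 : Y < 1 := by nlinarith [sq_nonneg X]
  have h4 : (1 - Y) ^ 2 ≤ 9 * X ^ 2 * γ ^ 2 := by
    have h0 : 0 ≤ 1 - Y := by linarith
    calc (1 - Y) ^ 2 ≤ (3 * X * γ) ^ 2 := by gcongr
      _ = _ := by ring
  have h5 : (1 + p ^ 2) * (1 - Y) ^ 2 ≤ 9 * X ^ 2 * ((X + Y) ^ 2 + 4 * X * Y + 2 * p * Y) := by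
    calc (1 + p ^ 2) * (1 - Y) ^ 2 ≤ (1 + p ^ 2) * (9 * X ^ 2 * γ ^ 2) := by gcongr
      _ = 9 * X ^ 2 * ((1 + p ^ 2) * γ ^ 2) := by ring
      _ ≤ _ := by gcongr
  have h6 : (X + Y) ^ 2 + 4 * X * Y + 2 * p * Y ≤ 5 / 2 * X ^ 2 + 9 * Y ^ 2 + p ^ 2 / 2 := by
    nlinarith [sq_nonneg (X - 2 * Y), sq_nonneg (p - 2 * Y)]
  have h7 : 9 * X ^ 2 * ((X + Y) ^ 2 + 4 * X * Y + 2 * p * Y)
      ≤ 9 * X ^ 2 * (5 / 2 * X ^ 2 + 9 * Y ^ 2 + p ^ 2 / 2) := by gcongr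
  have h8 : 9 / 2 * X ^ 2 ≤ (1 - Y) ^ 2 := by nlinarith [sq_nonneg (10 * Y - 1)]
  have h9 : (1 - Y) ^ 2 ≤ 9 * X ^ 2 * (5 / 2 * X ^ 2 + 9 * Y ^ 2) := by
    have : 9 / 2 * X ^ 2 * p ^ 2 ≤ (1 - Y) ^ 2 * p ^ 2 := by gcongr
    nlinarith
  have h10 : X ^ 2 ≤ 2 * (0.0862 - Y ^ 2) := by linarith
  have h10' : 0 ≤ 0.0862 - Y ^ 2 := by nlinarith [sq_nonneg X]
  have h11 : 9 * X ^ 2 * (5 / 2 * X ^ 2 + 9 * Y ^ 2)
      ≤ 9 * (2 * (0.0862 - Y ^ 2)) * (5 / 2 * (2 * (0.0862 - Y ^ 2)) + 9 * Y ^ 2) := by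
    gcongr
  have h12 := scalar_poly Y
  nlinarith

variable {n : ℕ} {ψ : ℕ → ℂ}

/-- Core bound for symmetric sequences. -/
theorem core_sym (hψ : Sym n ψ) (hn : 0 < n) :
    0.0862 * nsq n ψ ≤ nsq n (off (EE n ψ)) + nsq n (off (XX n ψ)) / 8 := by
  set x : ℝ := √(nsq n (off (XX n ψ))) / 2 with hx
  set y : ℝ := √(nsq n (off (EE n ψ))) with hy
  have hx0 : 0 ≤ x := by positivity
  have hy0 : 0 ≤ y := by positivity
  have hxx : √(nsq n (off (XX n ψ))) = 2 * x := by rw [hx]; ring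
  have hx2 : 4 * x ^ 2 = nsq n (off (XX n ψ)) := by
    rw [hx, div_pow, Real.sq_sqrt (nsq_nonneg _ _)]; ring
  have hy2 : y ^ 2 = nsq n (off (EE n ψ)) := by rw [hy, Real.sq_sqrt (nsq_nonneg _ _)]
  have hA := ineqA hψ hn
  have hB := ineqB hψ hn x y hx0 hx2 hy
  rw [hxx, ← hy] at hA
  have := scalar_core (nsq n ψ) x y (nsq n (GG n ψ)) (nsq_nonneg _ _) hx0 hy0 (nsq_nonneg _ _)
    (by linarith) hB
  rw [← hx2, ← hy2]
  linarith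

end Pool.Agent.helper34.LogCosh
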