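import Pool.Agent.helper34.LogCosh.Bridge

/-!
The two main inequalities (A) and (B) for symmetric sequences.
-/

open Finset Complex
open scoped ComplexConjugate

namespace Pool.Agent.helper34.LogCosh

/-- Remove the entry at `0`. -/
def off (q : ℕ → ℂ) (k : ℕ) : ℂ := if k = 0 then 0 else q k

theorem nsq_nonneg (n : ℕ) (q : ℕ → ℂ) : 0 ≤ nsq n q :=
  Finset.sum_nonneg fun _ _ => by positivity

theorem nsq_off (n : ℕ) (hn : 0 < n) (q : ℕ → ℂ) : nsq n q = ‖q 0‖ ^ 2 + nsq n (off q) := by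
  obtain ⟨m, rfl⟩ : ∃ m, n = m + 1 := ⟨n - 1, by omega⟩
  unfold nsq off
  rw [Finset.sum_range_succ', Finset.sum_range_succ' (fun k => ‖if k = 0 then (0 : ℂ) else q k‖ ^ 2)]
  simp [add_comm]

theorem ev_off (n : ℕ) (hn : 0 < n) (q : ℕ → ℂ) (w : ℂ) : ev n q w = q 0 + ev n (off q) w := by
  obtain ⟨m, rfl⟩ : ∃ m, n = m + 1 := ⟨n - 1, by omega⟩
  unfold ev off
  rw [Finset.sum_range_succ', Finset.sum_range_succ' (fun k => (if k = 0 then (0 : ℂ) else q k) * w ^ k)]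
  simp [add_comm]

theorem nsq_mono {n : ℕ} {p q : ℕ → ℂ} (h : ∀ k ∈ range n, ‖p k‖ ≤ ‖q k‖) : nsq n p ≤ nsq n q :=
  Finset.sum_le_sum fun k hk => by
    have := h k hk
    gcongr

theorem nsq_congr {n : ℕ} {p q : ℕ → ℂ} (h : ∀ k ∈ range n, p k = q k) : nsq n p = nsq n q :=
  Finset.sum_congr rfl fun k hk => by rw [h k hk]

theorem ev_congr {n : ℕ} {p q : ℕ → ℂ} (h : ∀ k ∈ range n, p k = q k) (w : ℂ) : ev n p w = ev n q w :=
  Finset.sum_congr rfl fun k hk => by rw [h k hk]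

/-- Cauchy-Schwarz for the coefficient sums. -/
theorem sum_norm_mul_le (n : ℕ) (p q : ℕ → ℂ) :
    ∑ k ∈ range n, ‖p k‖ * ‖q k‖ ≤ √(nsq n p) * √(nsq n q) :=
  Real.sum_mul_le_sqrt_mul_sqrt _ _ _

theorem abs_re_sum_le (n : ℕ) (p q : ℕ → ℂ) :
    |(∑ k ∈ range n, p k * conj (q k)).re| ≤ √(nsq n p) * √(nsq n q) := by
  refine (Complex.abs_re_le_norm _).trans ((norm_sum_le _ _).trans ?_)
  refine le_trans (le_of_eq ?_) (sum_norm_mul_le n p q)
  refine Finset.sum_congr rfl fun k _ => ?_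
  rw [norm_mul, RCLike.norm_conj]

/-- Minkowski. -/
theorem nsq_add_le (n : ℕ) (p q : ℕ → ℂ) :
    nsq n (fun k => p k + q k) ≤ (√(nsq n p) + √(nsq n q)) ^ 2 := by
  have h1 : nsq n (fun k => p k + q k) ≤ nsq n p + 2 * (∑ k ∈ range n, ‖p k‖ * ‖q k‖) + nsq n q := by
    unfold nsq
    rw [Finset.mul_sum, ← Finset.sum_add_distrib, ← Finset.sum_add_distrib]
    refine Finset.sum_le_sum fun k _ => ?_
    calc ‖p k + q k‖ ^ 2 ≤ (‖p k‖ + ‖q k‖) ^ 2 := by gcongr; exact norm_add_le _ _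
      _ = _ := by ring
  have h2 := sum_norm_mul_le n p q
  have h3 := Real.sq_sqrt (nsq_nonneg n p)
  have h4 := Real.sq_sqrt (nsq_nonneg n q)
  nlinarith

theorem sum_rt_norm_mul_le (n s : ℕ) (hn : 0 < n) (p q : ℕ → ℂ) :
    ∑ j ∈ range n, ‖ev n p (rt n s j)‖ * ‖ev n q (rt n s j)‖ ≤ n * (√(nsq n p) * √(nsq n q)) := by
  refine (Real.sum_mul_le_sqrt_mul_sqrt _ _ _).trans ?_
  rw [parseval_norm n s hn, parseval_norm n s hn, Real.sqrt_mul (by positivity),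
    Real.sqrt_mul (by positivity)]
  have : √(n : ℝ) * √(n : ℝ) = n := Real.mul_self_sqrt (by positivity)
  calc √(n : ℝ) * √(nsq n p) * (√(n : ℝ) * √(nsq n q))
      = (√(n : ℝ) * √(n : ℝ)) * (√(nsq n p) * √(nsq n q)) := by ring
    _ ≤ _ := by rw [this]

theorem sum_rt_norm_le (n s : ℕ) (hn : 0 < n) (p : ℕ → ℂ) :
    ∑ j ∈ range n, ‖ev n p (rt n s j)‖ ≤ n * √(nsq n p) := by
  have h := Real.sum_mul_le_sqrt_mul_sqrt (range n) (fun j => ‖ev n p (rt n s j)‖) (fun _ => 1)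
  simp only [mul_one, one_pow, Finset.sum_const, card_range, nsmul_eq_mul] at h
  refine h.trans ?_
  rw [parseval_norm n s hn, Real.sqrt_mul (by positivity)]
  have : √(n : ℝ) * √(n : ℝ) = n := Real.mul_self_sqrt (by positivity)
  calc √(n : ℝ) * √(nsq n p) * √(n : ℝ) = (√(n : ℝ) * √(n : ℝ)) * √(nsq n p) := by ring
    _ ≤ _ := by rw [this]

variable {n : ℕ} {ψ : ℕ → ℂ}

/-- `X = B' - B`. -/
noncomputable def XX (n : ℕ) (ψ : ℕ → ℂ) (k : ℕ) : ℂ := c1 n ψ ψ k - c0 n ψ ψ k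

/-- `e = ψ + (B + B')/2`. -/
noncomputable def EE (n : ℕ) (ψ : ℕ → ℂ) (k : ℕ) : ℂ := ψ k + (c0 n ψ ψ k + c1 n ψ ψ k) / 2

/-- `g = (1 - 2k/n) ψ`. -/
noncomputable def GG (n : ℕ) (ψ : ℕ → ℂ) (k : ℕ) : ℂ := (wt n k : ℂ) * ψ k

theorem c0_zero (h0 : ψ 0 = 0) : c0 n ψ ψ 0 = 0 := by
  unfold c0
  refine Finset.sum_eq_zero fun i _ => Finset.sum_eq_zero fun j _ => ?_
  split_ifs with h
  · have : i = 0 := by omega
    subst this; simp [h0]
  · rfl

theorem c1_tw_zero (a : ℕ → ℂ) (h0 : a 0 = 0) : c1 n a (tw n a) 0 = (nsq n a : ℝ) := by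
  unfold c1 nsq
  rw [ofReal_sum]
  refine Finset.sum_congr rfl fun i hi => ?_
  have hi' := mem_range.1 hi
  rcases Nat.eq_zero_or_pos i with hi0 | hi0
  · subst hi0; simp [h0]
  rw [Finset.sum_eq_single (n - i)]
  · rw [if_pos (by omega)]
    unfold tw
    rw [if_neg (by omega), show n - (n - i) = i by omega, Complex.mul_conj, Complex.normSq_eq_norm_sq]
  · intro j _ hj
    rw [if_neg (by omega)]
  · intro h
    exact absurd (mem_range.2 (by omega)) h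

theorem c0_congr {a b c d : ℕ → ℂ} (h1 : ∀ k ∈ range n, a k = c k) (h2 : ∀ k ∈ range n, b k = d k)
    (k : ℕ) : c0 n a b k = c0 n c d k :=
  Finset.sum_congr rfl fun i hi => Finset.sum_congr rfl fun j hj => by rw [h1 i hi, h2 j hj]

theorem c1_congr {a b c d : ℕ → ℂ} (h1 : ∀ k ∈ range n, a k = c k) (h2 : ∀ k ∈ range n, b k = d k)
    (k : ℕ) : c1 n a b k = c1 n c d k :=
  Finset.sum_congr rfl fun i hi => Finset.sum_congr rfl fun j hj => by rw [h1 i hi, h2 j hj]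

theorem c1_zero (hψ : Sym n ψ) (hn : 0 < n) : c1 n ψ ψ 0 = (nsq n ψ : ℝ) := by
  rw [← c1_tw_zero ψ (hψ.zero hn)]
  exact c1_congr (fun _ _ => rfl) (fun k hk => (hψ k hk).symm) 0

/-- (A): `P ≤ y √P + 3 x √G`. -/
theorem ineqA (hψ : Sym n ψ) (hn : 0 < n) :
    nsq n ψ ≤ √(nsq n (off (EE n ψ))) * √(nsq n ψ)
      + 3 / 2 * (√(nsq n (off (XX n ψ))) * √(nsq n (GG n ψ))) := by
  have hz := hψ.zero hn
  have h1 : (∑ k ∈ range n, EE n ψ k * conj (ψ k)).re
      = nsq n ψ + 1 / 2 * (∑ k ∈ range n, (c0 n ψ ψ k + c1 n ψ ψ k) * conj (ψ k)).re := by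
    have : ∑ k ∈ range n, EE n ψ k * conj (ψ k)
        = ((nsq n ψ : ℝ) : ℂ) + ((1 / 2 : ℝ) : ℂ) * ∑ k ∈ range n, (c0 n ψ ψ k + c1 n ψ ψ k) * conj (ψ k) := by
      unfold nsq EE
      rw [ofReal_sum, Finset.mul_sum, ← Finset.sum_add_distrib]
      refine Finset.sum_congr rfl fun k _ => ?_
      rw [← Complex.normSq_eq_norm_sq, ← Complex.mul_conj]
      push_cast
      ring
    rw [this, add_re, ofReal_re, re_ofReal_mul]
  have h2 := re_XG hψ hn
  have h3 : (∑ k ∈ range n, EE n ψ k * conj (ψ k)).re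
      = (∑ k ∈ range n, off (EE n ψ) k * conj (ψ k)).re := by
    congr 1
    refine Finset.sum_congr rfl fun k _ => ?_
    unfold off
    split_ifs with h
    · subst h; simp [hz]
    · rfl
  have h4 : (∑ k ∈ range n, (c1 n ψ ψ k - c0 n ψ ψ k) * conj ((wt n k : ℂ) * ψ k)).re
      = (∑ k ∈ range n, off (XX n ψ) k * conj (GG n ψ k)).re := by
    congr 1
    refine Finset.sum_congr rfl fun k _ => ?_
    unfold off GG XX
    split_ifs with h
    · subst h; simp [hz]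
    · rfl
  have h5 := abs_re_sum_le n (off (EE n ψ)) ψ
  have h6 := abs_re_sum_le n (off (XX n ψ)) (GG n ψ)
  rw [h3] at h1
  rw [h4] at h2
  have h7 := (abs_le.1 h5).2
  have h8 := (abs_le.1 h6).1
  linarith

theorem c0_GG (k : ℕ) (hn : 0 < n) : c0 n ψ (GG n ψ) k = (1 - (k : ℂ) / n) * c0 n ψ ψ k := by
  have hn' : (n : ℂ) ≠ 0 := by exact_mod_cast hn.ne'
  have h1 : c0 n ψ (GG n ψ) k = ∑ i ∈ range n, ∑ j ∈ range n,
      if i + j = k then (wt n i : ℂ) * (ψ i * ψ j) else 0 := by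
    unfold c0 GG
    rw [Finset.sum_comm]
    refine Finset.sum_congr rfl fun i _ => Finset.sum_congr rfl fun j _ => ?_
    have : (j + i = k) ↔ (i + j = k) := by omega
    simp only [this]
    split_ifs <;> ring
  have h2 : c0 n ψ (GG n ψ) k = ∑ i ∈ range n, ∑ j ∈ range n,
      if i + j = k then (wt n j : ℂ) * (ψ i * ψ j) else 0 := by
    unfold c0 GG
    refine Finset.sum_congr rfl fun i _ => Finset.sum_congr rfl fun j _ => ?_
    split_ifs <;> ring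
  have h3 : c0 n ψ (GG n ψ) k + c0 n ψ (GG n ψ) k = 2 * ((1 - (k : ℂ) / n) * c0 n ψ ψ k) := by
    nth_rewrite 1 [h1]
    rw [h2, ← Finset.sum_add_distrib]
    unfold c0
    rw [Finset.mul_sum, Finset.mul_sum]
    refine Finset.sum_congr rfl fun i _ => ?_
    rw [← Finset.sum_add_distrib, Finset.mul_sum, Finset.mul_sum]
    refine Finset.sum_congr rfl fun j _ => ?_
    split_ifs with h
    · rw [← h]
      unfold wt
      push_cast
      field_simp
      ring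
    · simp
  linear_combination h3 / 2

theorem c1_GG (k : ℕ) (hn : 0 < n) : c1 n ψ (GG n ψ) k = (-(k : ℂ) / n) * c1 n ψ ψ k := by
  have hn' : (n : ℂ) ≠ 0 := by exact_mod_cast hn.ne'
  have h1 : c1 n ψ (GG n ψ) k = ∑ i ∈ range n, ∑ j ∈ range n,
      if i + j = n + k then (wt n i : ℂ) * (ψ i * ψ j) else 0 := by
    unfold c1 GG
    rw [Finset.sum_comm]
    refine Finset.sum_congr rfl fun i _ => Finset.sum_congr rfl fun j _ => ?_
    have : (j + i = n + k) ↔ (i + j = n + k) := by omega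
    simp only [this]
    split_ifs <;> ring
  have h2 : c1 n ψ (GG n ψ) k = ∑ i ∈ range n, ∑ j ∈ range n,
      if i + j = n + k then (wt n j : ℂ) * (ψ i * ψ j) else 0 := by
    unfold c1 GG
    refine Finset.sum_congr rfl fun i _ => Finset.sum_congr rfl fun j _ => ?_
    split_ifs <;> ring
  have h3 : c1 n ψ (GG n ψ) k + c1 n ψ (GG n ψ) k = 2 * ((-(k : ℂ) / n) * c1 n ψ ψ k) := by
    nth_rewrite 1 [h1]
    rw [h2, ← Finset.sum_add_distrib]
    unfold c1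
    rw [Finset.mul_sum, Finset.mul_sum]
    refine Finset.sum_congr rfl fun i _ => ?_
    rw [← Finset.sum_add_distrib, Finset.mul_sum, Finset.mul_sum]
    refine Finset.sum_congr rfl fun j _ => ?_
    split_ifs with h
    · have hk : (k : ℂ) = i + j - n := by
        have : ((i + j : ℕ) : ℂ) = ((n + k : ℕ) : ℂ) := by rw [h]
        push_cast at this
        linear_combination -this
      rw [hk]
      unfold wt
      push_cast
      field_simp
      ring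
    · simp
  linear_combination h3 / 2

/-- `u = g + ψ ⊛ g`. -/
noncomputable def UU (n : ℕ) (ψ : ℕ → ℂ) (k : ℕ) : ℂ :=
  GG n ψ k + (c0 n ψ (GG n ψ) k + c1 n ψ (GG n ψ) k)

theorem UU_eq (hn : 0 < n) (k : ℕ) :
    UU n ψ k = -(1 / 2) * XX n ψ k + (wt n k : ℂ) * EE n ψ k := by
  have hn' : (n : ℂ) ≠ 0 := by exact_mod_cast hn.ne'
  unfold UU
  rw [c0_GG k hn, c1_GG k hn]
  unfold XX EE GG wt
  push_cast
  field_simp
  ring

theorem ev_UU {w : ℂ} (hwn : w ^ n = 1) : ev n (UU n ψ) w = ev n (GG n ψ) w * (1 + ev n ψ w) := by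
  have h1 : ev n (UU n ψ) w = ev n (GG n ψ) w + (ev n (c0 n ψ (GG n ψ)) w + ev n (c1 n ψ (GG n ψ)) w) := by
    rw [← ev_add, ← ev_add]; rfl
  have h2 := ev_mul n ψ (GG n ψ) w
  rw [hwn, one_mul] at h2
  rw [h1, ← h2]; ring

theorem ev_EE {w : ℂ} (hwn : w ^ n = 1) : ev n (EE n ψ) w = ev n ψ w + (ev n ψ w) ^ 2 / 2 := by
  have h1 : ev n (EE n ψ) w = ev n ψ w + (1 / 2) * (ev n (c0 n ψ ψ) w + ev n (c1 n ψ ψ) w) := by
    rw [← ev_add, ← ev_smul, ← ev_add]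
    unfold ev EE
    exact Finset.sum_congr rfl fun k _ => by ring
  have h2 := ev_mul n ψ ψ w
  rw [hwn, one_mul] at h2
  rw [h1, ← h2]; ring

theorem ev_sym_im (hψ : Sym n ψ) (hn : 0 < n) {w : ℂ} (hw : ‖w‖ = 1) (hwn : w ^ n = 1) :
    (ev n ψ w).im = 0 := by
  have h1 := ev_tw n ψ (hψ.zero hn) hw
  rw [hwn, one_mul, ev_congr hψ w] at h1
  exact (Complex.conj_eq_iff_im).1 h1.symm

theorem norm_one_add_sq (hψ : Sym n ψ) (hn : 0 < n) {w : ℂ} (hw : ‖w‖ = 1) (hwn : w ^ n = 1) :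
    ‖1 + ev n ψ w‖ ^ 2 = 1 + 2 * (ev n (EE n ψ) w).re := by
  have h := ev_sym_im hψ hn hw hwn
  set b := (ev n ψ w).re with hb
  have h2 : ev n ψ w = (b : ℂ) := by
    apply Complex.ext <;> simp [hb, h]
  rw [ev_EE hwn, h2]
  have h3 : (1 : ℂ) + (b : ℂ) = ((1 + b : ℝ) : ℂ) := by push_cast; ring
  have h4 : (b : ℂ) + (b : ℂ) ^ 2 / 2 = ((b + b ^ 2 / 2 : ℝ) : ℂ) := by push_cast; ring
  rw [h3, h4, ofReal_re, Complex.norm_real, Real.norm_eq_abs, sq_abs]
  ring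

/-- (B): `(1+P) G ≤ (x+y)² + 4xy + 2Py`. -/
theorem ineqB (hψ : Sym n ψ) (hn : 0 < n) (x y : ℝ) (hx : 0 ≤ x)
    (hx2 : 4 * x ^ 2 = nsq n (off (XX n ψ))) (hy : y = √(nsq n (off (EE n ψ)))) :
    (1 + nsq n ψ) * nsq n (GG n ψ) ≤ (x + y) ^ 2 + 4 * x * y + 2 * nsq n ψ * y := by
  have hnR : (0 : ℝ) < n := by exact_mod_cast hn
  have hz := hψ.zero hn
  set P := nsq n ψ with hP
  have hP0 : 0 ≤ P := nsq_nonneg n ψ
  have hy0 : 0 ≤ y := hy ▸ Real.sqrt_nonneg _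
  have hX0 : XX n ψ 0 = (P : ℂ) := by
    unfold XX
    rw [c0_zero hz, c1_zero hψ hn, sub_zero]
  have hE0 : EE n ψ 0 = ((P / 2 : ℝ) : ℂ) := by
    unfold EE
    rw [c0_zero hz, c1_zero hψ hn, hz]
    push_cast; ring
  have hsx : √(nsq n (off (XX n ψ))) = 2 * x := by
    rw [← hx2, show 4 * x ^ 2 = (2 * x) ^ 2 by ring, Real.sqrt_sq (by positivity)]
  -- upper bound for `nsq u`
  have hU : nsq n (UU n ψ) ≤ (x + y) ^ 2 := by
    have h0 : UU n ψ 0 = 0 := by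
      rw [UU_eq hn, hX0, hE0]
      unfold wt
      push_cast
      simp
      ring
    have h1 : nsq n (UU n ψ) = nsq n (off (UU n ψ)) := by
      rw [nsq_off n hn, h0]; simp
    have h2 : nsq n (off (UU n ψ)) = nsq n (fun k => (-(1 / 2) : ℂ) * off (XX n ψ) k
        + (wt n k : ℂ) * off (EE n ψ) k) := by
      refine nsq_congr fun k _ => ?_
      unfold off
      split_ifs with h
      · simp
      · rw [UU_eq hn]
    rw [h1, h2]
    refine (nsq_add_le n _ _).trans ?_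
    have h3 : √(nsq n fun k => (-(1 / 2) : ℂ) * off (XX n ψ) k) = x := by
      have : nsq n (fun k => (-(1 / 2) : ℂ) * off (XX n ψ) k) = x ^ 2 := by
        have : nsq n (fun k => (-(1 / 2) : ℂ) * off (XX n ψ) k) = 1 / 4 * nsq n (off (XX n ψ)) := by
          unfold nsq
          rw [Finset.mul_sum]
          refine Finset.sum_congr rfl fun k _ => ?_
          rw [norm_mul, mul_pow]
          norm_num
        rw [this, ← hx2]; ring
      rw [this, Real.sqrt_sq hx]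
    have h4 : √(nsq n fun k => (wt n k : ℂ) * off (EE n ψ) k) ≤ y := by
      rw [hy]
      refine Real.sqrt_le_sqrt (nsq_mono fun k hk => ?_)
      rw [norm_mul, Complex.norm_real, Real.norm_eq_abs]
      calc |wt n k| * ‖off (EE n ψ) k‖ ≤ 1 * ‖off (EE n ψ) k‖ := by
            gcongr; exact abs_wt_le hk
        _ = _ := one_mul _
    rw [h3]
    have h5 : 0 ≤ √(nsq n fun k => (wt n k : ℂ) * off (EE n ψ) k) := Real.sqrt_nonneg _
    gcongr
  -- Parseval for `u`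
  have hpar : n * nsq n (UU n ψ) = ∑ j ∈ range n, ‖ev n (GG n ψ) (rt n 0 j)‖ ^ 2
      * (1 + 2 * (ev n (EE n ψ) (rt n 0 j)).re) := by
    rw [← parseval_norm n 0 hn]
    refine Finset.sum_congr rfl fun j _ => ?_
    have hw := norm_rt n 0 j
    have hwn : rt n 0 j ^ n = 1 := by rw [rt_pow n 0 j hn]; simp
    rw [ev_UU hwn, norm_mul, mul_pow, norm_one_add_sq hψ hn hw hwn]
  have hsplit : ∀ j, (ev n (EE n ψ) (rt n 0 j)).re = P / 2 + (ev n (off (EE n ψ)) (rt n 0 j)).re := by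
    intro j
    rw [ev_off n hn, add_re, hE0, ofReal_re]
  have hmain : n * nsq n (UU n ψ) = (1 + P) * (n * nsq n (GG n ψ))
      + 2 * ∑ j ∈ range n, ‖ev n (GG n ψ) (rt n 0 j)‖ ^ 2 * (ev n (off (EE n ψ)) (rt n 0 j)).re := by
    rw [hpar, ← parseval_norm n 0 hn (GG n ψ), Finset.mul_sum, Finset.mul_sum, ← Finset.sum_add_distrib]
    refine Finset.sum_congr rfl fun j _ => ?_
    rw [hsplit]; ring
  -- the error term
  have hQ : ∀ j, ‖ev n (GG n ψ) (rt n 0 j)‖ ^ 2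
      ≤ P + ‖ev n (off fun k => (wt n k : ℂ) * XX n ψ k) (rt n 0 j)‖ := by
    intro j
    have hw := norm_rt n 0 j
    have hwn : rt n 0 j ^ n = 1 := by rw [rt_pow n 0 j hn]; simp
    have h1 := norm_ev_g_le hψ hn hw hwn
    have h2 : (ev n (fun k => (wt n k : ℂ) * (c1 n ψ ψ k - c0 n ψ ψ k)) (rt n 0 j)).re
        = P + (ev n (off fun k => (wt n k : ℂ) * XX n ψ k) (rt n 0 j)).re := by
      have : ev n (fun k => (wt n k : ℂ) * (c1 n ψ ψ k - c0 n ψ ψ k)) (rt n 0 j)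
          = ev n (fun k => (wt n k : ℂ) * XX n ψ k) (rt n 0 j) := rfl
      rw [this, ev_off n hn, add_re, hX0]
      unfold wt
      simp
    have h3 := Complex.re_le_norm (ev n (off fun k => (wt n k : ℂ) * XX n ψ k) (rt n 0 j))
    have h4 : ‖ev n (GG n ψ) (rt n 0 j)‖ ^ 2 = ‖ev n (fun k => (wt n k : ℂ) * ψ k) (rt n 0 j)‖ ^ 2 := rfl
    rw [h4]
    linarith
  have herr : |∑ j ∈ range n, ‖ev n (GG n ψ) (rt n 0 j)‖ ^ 2 * (ev n (off (EE n ψ)) (rt n 0 j)).re|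
      ≤ n * (P * y + 2 * x * y) := by
    refine (Finset.abs_sum_le_sum_abs _ _).trans ?_
    have h1 : ∀ j ∈ range n, |‖ev n (GG n ψ) (rt n 0 j)‖ ^ 2 * (ev n (off (EE n ψ)) (rt n 0 j)).re|
        ≤ P * ‖ev n (off (EE n ψ)) (rt n 0 j)‖
          + ‖ev n (off fun k => (wt n k : ℂ) * XX n ψ k) (rt n 0 j)‖ * ‖ev n (off (EE n ψ)) (rt n 0 j)‖ := by
      intro j _
      rw [abs_mul, abs_of_nonneg (by positivity : (0 : ℝ) ≤ ‖ev n (GG n ψ) (rt n 0 j)‖ ^ 2), ← add_mul]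
      have h2 := Complex.abs_re_le_norm (ev n (off (EE n ψ)) (rt n 0 j))
      have h3 := hQ j
      gcongr
    refine (Finset.sum_le_sum h1).trans ?_
    rw [Finset.sum_add_distrib, ← Finset.mul_sum]
    have h2 := sum_rt_norm_le n 0 hn (off (EE n ψ))
    have h3 := sum_rt_norm_mul_le n 0 hn (off fun k => (wt n k : ℂ) * XX n ψ k) (off (EE n ψ))
    rw [← hy] at h2 h3
    have h4 : √(nsq n (off fun k => (wt n k : ℂ) * XX n ψ k)) ≤ 2 * x := by
      rw [← hsx]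
      refine Real.sqrt_le_sqrt (nsq_mono fun k hk => ?_)
      unfold off
      split_ifs with h
      · simp
      · rw [norm_mul, Complex.norm_real, Real.norm_eq_abs]
        calc |wt n k| * ‖XX n ψ k‖ ≤ 1 * ‖XX n ψ k‖ := by
              gcongr; exact abs_wt_le hk
          _ = _ := one_mul _
    have h5 : n * (√(nsq n (off fun k => (wt n k : ℂ) * XX n ψ k)) * y) ≤ n * (2 * x * y) := by
      gcongr
    have h6 : P * ∑ j ∈ range n, ‖ev n (off (EE n ψ)) (rt n 0 j)‖ ≤ P * (n * y) := by gcongr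
    calc _ ≤ P * (n * y) + n * (2 * x * y) := by linarith
      _ = _ := by ring
  have h7 := (abs_le.1 herr).1
  have h8 : n * nsq n (UU n ψ) ≤ n * (x + y) ^ 2 := by gcongr
  have h9 : n * ((1 + P) * nsq n (GG n ψ)) ≤ n * ((x + y) ^ 2 + 4 * x * y + 2 * P * y) := by
    rw [hmain] at h8
    linarith
  exact le_of_mul_le_mul_left h9 hnR

end Pool.Agent.helper34.LogCosh
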