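import Pool.Agent.helper34.LogCosh.Dft

/-!
Taylor coefficients of analytic functions on the unit disc.
-/

open Finset Complex Filter Topology
open scoped ComplexConjugate

namespace Pool.Agent.helper34.LogCosh

/-- `c` is the sequence of Taylor coefficients at `0` of `f`, and the Taylor series
converges to `f` on the open unit disc. -/
def IsTaylor (f : ℂ → ℂ) (c : ℕ → ℂ) : Prop :=
  ∀ z : ℂ, ‖z‖ < 1 → HasSum (fun k => c k * z ^ k) (f z)

theorem mem_ball_iff' {z : ℂ} : z ∈ Metric.ball (0 : ℂ) 1 ↔ ‖z‖ < 1 := by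
  rw [Metric.mem_ball, dist_zero_right]

theorem isTaylor_of_diff {f : ℂ → ℂ} (hf : DifferentiableOn ℂ f (Metric.ball 0 1)) :
    IsTaylor f (fun k => (Nat.factorial k : ℂ)⁻¹ * iteratedDeriv k f 0) := by
  intro z hz
  have h := Complex.hasSum_taylorSeries_on_ball hf (mem_ball_iff'.2 hz)
  simp only [sub_zero, smul_eq_mul] at h
  refine h.congr_fun fun k => ?_
  ring

theorem IsTaylor.hasFPowerSeriesAt {f : ℂ → ℂ} {c : ℕ → ℂ} (h : IsTaylor f c) :
    HasFPowerSeriesAt f (FormalMultilinearSeries.ofScalars ℂ c) 0 := by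
  rw [hasFPowerSeriesAt_iff]
  have : Metric.ball (0 : ℂ) 1 ∈ 𝓝 (0 : ℂ) := Metric.ball_mem_nhds 0 one_pos
  refine eventually_of_mem this fun z hz => ?_
  rw [zero_add]
  refine (h z (mem_ball_iff'.1 hz)).congr_fun fun k => ?_
  rw [FormalMultilinearSeries.coeff_ofScalars, smul_eq_mul, mul_comm]

theorem IsTaylor.unique {f : ℂ → ℂ} {c d : ℕ → ℂ} (hc : IsTaylor f c) (hd : IsTaylor f d) : c = d := by
  have h := hc.hasFPowerSeriesAt.eq_formalMultilinearSeries hd.hasFPowerSeriesAt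
  funext k
  have h2 : (FormalMultilinearSeries.ofScalars ℂ c).coeff k
      = (FormalMultilinearSeries.ofScalars ℂ d).coeff k := by rw [h]
  rwa [FormalMultilinearSeries.coeff_ofScalars, FormalMultilinearSeries.coeff_ofScalars] at h2

theorem IsTaylor.congr {f g : ℂ → ℂ} {c : ℕ → ℂ} (h : IsTaylor f c)
    (hfg : ∀ z : ℂ, ‖z‖ < 1 → f z = g z) : IsTaylor g c := by
  intro z hz
  rw [← hfg z hz]
  exact h z hz

theorem IsTaylor.summable {f : ℂ → ℂ} {c : ℕ → ℂ} (h : IsTaylor f c) {z : ℂ} (hz : ‖z‖ < 1) :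
    Summable fun k => ‖c k * z ^ k‖ := (h z hz).summable.norm

theorem IsTaylor.summable' {f : ℂ → ℂ} {c : ℕ → ℂ} (h : IsTaylor f c) {r : ℝ} (h0 : 0 ≤ r) (h1 : r < 1) :
    Summable fun k => ‖c k‖ * r ^ k := by
  have := h.summable (z := (r : ℂ)) (by rw [Complex.norm_real, Real.norm_eq_abs, abs_of_nonneg h0]; exact h1)
  refine this.congr fun k => ?_
  rw [norm_mul, norm_pow, Complex.norm_real, Real.norm_eq_abs, abs_of_nonneg h0]

theorem IsTaylor.at_zero {f : ℂ → ℂ} {c : ℕ → ℂ} (h : IsTaylor f c) : f 0 = c 0 := by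
  have h1 := h 0 (by simp)
  have h2 : HasSum (fun k => c k * (0 : ℂ) ^ k) (c 0) := by
    have := hasSum_single (f := fun k => c k * (0 : ℂ) ^ k) 0 (fun k hk => by simp [hk])
    simpa using this
  exact h1.unique h2

theorem IsTaylor.add {f g : ℂ → ℂ} {c d : ℕ → ℂ} (hf : IsTaylor f c) (hg : IsTaylor g d) :
    IsTaylor (fun z => f z + g z) (fun k => c k + d k) := by
  intro z hz
  refine ((hf z hz).add (hg z hz)).congr_fun fun k => ?_
  ring

theorem IsTaylor.smul {f : ℂ → ℂ} {c : ℕ → ℂ} (a : ℂ) (hf : IsTaylor f c) :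
    IsTaylor (fun z => a * f z) (fun k => a * c k) := by
  intro z hz
  refine ((hf z hz).mul_left a).congr_fun fun k => ?_
  ring

/-- Cauchy product. -/
noncomputable def cp (c d : ℕ → ℂ) (k : ℕ) : ℂ := ∑ p ∈ antidiagonal k, c p.1 * d p.2

theorem IsTaylor.mul {f g : ℂ → ℂ} {c d : ℕ → ℂ} (hf : IsTaylor f c) (hg : IsTaylor g d) :
    IsTaylor (fun z => f z * g z) (cp c d) := by
  intro z hz
  have h1 := tsum_mul_tsum_eq_tsum_sum_antidiagonal_of_summable_norm (hf.summable hz) (hg.summable hz)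
  have h2 := (summable_norm_sum_mul_antidiagonal_of_summable_norm (hf.summable hz) (hg.summable hz)).of_norm
  rw [(hf z hz).tsum_eq, (hg z hz).tsum_eq] at h1
  have h3 := h2.hasSum
  rw [← h1] at h3
  refine h3.congr_fun fun k => ?_
  unfold cp
  rw [Finset.sum_mul]
  refine Finset.sum_congr rfl fun p hp => ?_
  rw [← mem_antidiagonal.1 hp, pow_add]
  ring

/-- Truncation of a sequence. -/
noncomputable def tr (n : ℕ) (q : ℕ → ℂ) (k : ℕ) : ℂ := if k < n then q k else 0

theorem isTaylor_ev (n : ℕ) (q : ℕ → ℂ) : IsTaylor (ev n q) (tr n q) := by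
  intro z _
  have h : HasSum (fun k => tr n q k * z ^ k) (∑ k ∈ range n, tr n q k * z ^ k) := by
    refine hasSum_sum_of_ne_finset_zero fun k hk => ?_
    have : ¬ k < n := fun h => hk (mem_range.2 h)
    simp [tr, this]
  have h2 : ∑ k ∈ range n, tr n q k * z ^ k = ev n q z := by
    unfold ev
    refine Finset.sum_congr rfl fun k hk => ?_
    unfold tr
    rw [if_pos (mem_range.1 hk)]
  rwa [h2] at h

theorem IsTaylor.comp_mul {f : ℂ → ℂ} {c : ℕ → ℂ} (hf : IsTaylor f c) {a : ℂ} (ha : ‖a‖ ≤ 1) :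
    IsTaylor (fun z => f (a * z)) (fun k => c k * a ^ k) := by
  intro z hz
  have h : ‖a * z‖ < 1 := by
    rw [norm_mul]
    calc ‖a‖ * ‖z‖ ≤ 1 * ‖z‖ := by gcongr
      _ < 1 := by rwa [one_mul]
  refine (hf _ h).congr_fun fun k => ?_
  rw [mul_pow]; ring

theorem IsTaylor.differentiableOn {f : ℂ → ℂ} {c : ℕ → ℂ} (h : IsTaylor f c) :
    DifferentiableOn ℂ f (Metric.ball 0 1) := by
  have hb : HasFPowerSeriesOnBall f (FormalMultilinearSeries.ofScalars ℂ c) 0 1 := by
    refine ⟨?_, one_pos, ?_⟩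
    · refine ENNReal.le_of_forall_nnreal_lt fun r hr => ?_
      have hr1 : (r : ℝ) < 1 := by exact_mod_cast hr
      have hs := h.summable' (r := (r : ℝ)) r.2 hr1
      refine FormalMultilinearSeries.le_radius_of_summable _ ?_
      refine hs.congr fun k => ?_
      rw [FormalMultilinearSeries.ofScalars_norm]
    · intro y hy
      have hy' : ‖y‖ < 1 := by
        have := hy
        rw [Metric.mem_eball, edist_zero_right] at this
        have h2 : (‖y‖ₑ : ENNReal) < 1 := this
        rw [← ofReal_norm, ENNReal.ofReal_lt_one] at h2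
        exact h2
      rw [zero_add]
      refine (h y hy').congr_fun fun k => ?_
      rw [FormalMultilinearSeries.apply_eq_pow_smul_coeff, FormalMultilinearSeries.coeff_ofScalars,
        smul_eq_mul, mul_comm]
  have h2 := hb.differentiableOn
  have h3 : Metric.eball (0 : ℂ) 1 = Metric.ball 0 1 := by
    ext z
    rw [Metric.mem_eball, mem_ball_iff', edist_zero_right, ← ofReal_norm, ENNReal.ofReal_lt_one]
  rwa [h3] at h2

theorem IsTaylor.eq_iteratedDeriv {f : ℂ → ℂ} {c : ℕ → ℂ} (h : IsTaylor f c) (k : ℕ) :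
    c k = (Nat.factorial k : ℂ)⁻¹ * iteratedDeriv k f 0 :=
  congrFun (h.unique (isTaylor_of_diff h.differentiableOn)) k

theorem IsTaylor.deriv {f : ℂ → ℂ} {c : ℕ → ℂ} (h : IsTaylor f c) :
    IsTaylor (deriv f) (fun k => (k + 1 : ℕ) * c (k + 1)) := by
  have hd : DifferentiableOn ℂ (_root_.deriv f) (Metric.ball 0 1) :=
    h.differentiableOn.deriv Metric.isOpen_ball
  have h1 := isTaylor_of_diff hd
  have h2 : (fun k => (Nat.factorial k : ℂ)⁻¹ * iteratedDeriv k (_root_.deriv f) 0)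
      = (fun k => ((k + 1 : ℕ) : ℂ) * c (k + 1)) := by
    funext k
    rw [h.eq_iteratedDeriv (k + 1), iteratedDeriv_succ', Nat.factorial_succ]
    push_cast
    have h3 : (k : ℂ) + 1 ≠ 0 := by exact_mod_cast Nat.succ_ne_zero k
    have h4 : (Nat.factorial k : ℂ) ≠ 0 := by exact_mod_cast Nat.factorial_ne_zero k
    field_simp
  rwa [h2] at h1

/-- Coefficients of `z * f z`. -/
noncomputable def sh (c : ℕ → ℂ) (k : ℕ) : ℂ := if k = 0 then 0 else c (k - 1)

theorem IsTaylor.mul_id {f : ℂ → ℂ} {c : ℕ → ℂ} (h : IsTaylor f c) :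
    IsTaylor (fun z => z * f z) (sh c) := by
  intro z hz
  have h1 : HasSum (fun k => sh c (k + 1) * z ^ (k + 1)) (z * f z) := by
    refine ((h z hz).mul_left z).congr_fun fun k => ?_
    simp only [sh, Nat.add_sub_cancel]
    rw [if_neg (Nat.succ_ne_zero k), pow_succ]
    ring
  have h2 := (hasSum_nat_add_iff (f := fun k => sh c k * z ^ k) 1).1 h1
  simpa [sh] using h2

end Pool.Agent.helper34.LogCosh
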